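import Mathlib
import Pool.Agent.H95.VG.Targets5

/-!
# VG modules S3M (primitives are bounded) and S4M (logarithms over compact sets)
-/

open MeasureTheory Set Filter Topology
open scoped ENNReal NNReal ContDiff ComplexConjugate

namespace Pool.Agent.H81.VG

open Pool.Agent.H95.VG

theorem append_mem_ball {n : ℕ} {z₀ y₀ z y : V n} {r : ℝ} (hr : 0 < r) :
    Fin.append z y ∈ Metric.ball (Fin.append z₀ y₀) r ↔
      z ∈ Metric.ball z₀ r ∧ y ∈ Metric.ball y₀ r := by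
  rw [Metric.mem_ball, Metric.mem_ball, Metric.mem_ball, dist_pi_lt_iff hr, dist_pi_lt_iff hr,
    dist_pi_lt_iff hr]
  constructor
  · intro h
    refine ⟨fun i => ?_, fun i => ?_⟩
    · have := h (Fin.castAdd n i)
      rwa [Fin.append_left, Fin.append_left] at this
    · have := h (Fin.natAdd n i)
      rwa [Fin.append_right, Fin.append_right] at this
  · rintro ⟨h1, h2⟩ i
    refine Fin.addCases (fun j => ?_) (fun j => ?_) i
    · rw [Fin.append_left, Fin.append_left]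
      exact h1 j
    · rw [Fin.append_right, Fin.append_right]
      exact h2 j

theorem s3m (hfbr : T_FBR) (hfcc : T_FCC) : T_S3M := by
  intro n X _ _ _ ι _ A f I hn hM h η hh hη K hK hKc
  have loc : ∀ p : V n × X, p.1 ∈ K → ∃ U ∈ 𝓝 p, ∃ C : ℝ, ∀ z ∈ K \ I,
      (z, f z) ∈ U → |η z| ≤ C := by
    rintro ⟨z₀, x₀⟩ hz₀
    obtain ⟨a, hxa, hxb⟩ := A.cover x₀
    have hy1 : ‖A.φ a x₀‖ < 1 := by simpa using hxb
    obtain ⟨r, m, G, l, hL⟩ := hM.loc a z₀ (hK hz₀) (A.φ a x₀) (by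
      rw [mem_closedBall_zero_iff]; linarith)
    obtain ⟨r', ε₀, δ₁, D₀, hF⟩ := hfbr n X ι A f I (Dp n) hn hM a _ r m G l hL
    obtain ⟨ρ, hρ, hρr, hσ⟩ := hfcc n X ι A f I (Dp n) hn hM a z₀ (A.φ a x₀) r m G l
      (by rw [mem_closedBall_zero_iff]; linarith) hL r' ε₀ δ₁ D₀ hF
    have hr14 := hL.rle
    have hr'r := hF.pos.2.1
    have hr'0 := hF.pos.1
    have h1 := hσ (fun z => η z - h a (FF A f a z)) (by
      rintro z ⟨hzI, hzs, hzb⟩
      have hzb' := (append_mem_ball hr'0).1 hzb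
      have : A.φ a (f z) ∈ Metric.ball (0 : V n) 2 := by
        have h2 : dist (A.φ a (f z)) (A.φ a x₀) < r' := hzb'.2
        rw [mem_ball_zero_iff]
        have h3 : ‖A.φ a (f z)‖ ≤ ‖A.φ a x₀‖ + dist (A.φ a (f z)) (A.φ a x₀) := by
          rw [dist_eq_norm]
          have := norm_add_le (A.φ a x₀) (A.φ a (f z) - A.φ a x₀)
          simpa using this
        linarith
      exact hη.loc a z ⟨hzI, hzs, this⟩)
    have hfin : ((fun z => η z - h a (FF A f a z)) ''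
        Ug A f I (Dp n) a (Fin.append z₀ (A.φ a x₀)) ρ).Finite :=
      Set.finite_of_encard_le_coe h1
    obtain ⟨B, hB⟩ : ∃ B : ℝ, ∀ s ∈ ((fun z => η z - h a (FF A f a z)) ''
        Ug A f I (Dp n) a (Fin.append z₀ (A.φ a x₀)) ρ), |s| ≤ B := by
      obtain ⟨B, hB⟩ := hfin.isCompact.isBounded.exists_norm_le
      exact ⟨B, fun s hs => by simpa using hB s hs⟩
    have hcb : Metric.closedBall (A.φ a x₀) (1 / 4) ⊆ Metric.ball (0 : V n) 2 := by
      intro y hy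
      rw [Metric.mem_closedBall, dist_eq_norm] at hy
      rw [mem_ball_zero_iff]
      have := norm_add_le (A.φ a x₀) (y - A.φ a x₀)
      simp only [add_sub_cancel] at this
      linarith
    obtain ⟨B', hB'⟩ := (isCompact_closedBall (A.φ a x₀) (1 / 4)).exists_bound_of_continuousOn
      ((hh.smooth a).continuousOn.mono hcb)
    refine ⟨Metric.ball z₀ ρ ×ˢ ((A.φ a).source ∩ A.φ a ⁻¹' Metric.ball (A.φ a x₀) ρ), ?_,
      B + B', ?_⟩
    · exact prod_mem_nhds (Metric.ball_mem_nhds _ hρ)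
        (((A.φ a).isOpen_inter_preimage Metric.isOpen_ball).mem_nhds
          ⟨hxa, Metric.mem_ball_self hρ⟩)
    · rintro z ⟨hzK, hzI⟩ ⟨hz1, hz2, hz3⟩
      have hz3' : A.φ a (f z) ∈ Metric.ball (A.φ a x₀) ρ := hz3
      have hmem : z ∈ Ug A f I (Dp n) a (Fin.append z₀ (A.φ a x₀)) ρ :=
        ⟨⟨hK hzK, hzI⟩, hz2, (append_mem_ball hρ).2 ⟨hz1, hz3'⟩⟩
      have e1 := hB _ (Set.mem_image_of_mem _ hmem)
      have e2 := hB' (FF A f a z) (by
        rw [Metric.mem_closedBall]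
        have : dist (FF A f a z) (A.φ a x₀) < ρ := hz3'
        linarith)
      rw [Real.norm_eq_abs] at e2
      have e3 := abs_add_le (η z - h a (FF A f a z)) (h a (FF A f a z))
      simp only [sub_add_cancel] at e3
      linarith
  have main : ∃ C : ℝ, ∀ z ∈ K \ I, (z, f z) ∈ (K ×ˢ (univ : Set X)) → |η z| ≤ C := by
    refine IsCompact.induction_on (p := fun S => ∃ C : ℝ, ∀ z ∈ K \ I, (z, f z) ∈ S → |η z| ≤ C)
      (hKc.prod isCompact_univ) ⟨0, fun z _ hz => absurd hz (Set.notMem_empty _)⟩ ?_ ?_ ?_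
    · rintro s t hst ⟨C, hC⟩
      exact ⟨C, fun z hz hzs => hC z hz (hst hzs)⟩
    · rintro s t ⟨C, hC⟩ ⟨C', hC'⟩
      refine ⟨max C C', fun z hz hzs => ?_⟩
      rcases hzs with hzs | hzs
      · exact (hC z hz hzs).trans (le_max_left _ _)
      · exact (hC' z hz hzs).trans (le_max_right _ _)
    · rintro p hp
      obtain ⟨U, hU, hC⟩ := loc p hp.1
      exact ⟨U, mem_nhdsWithin_of_mem_nhds hU, hC⟩
  obtain ⟨C, hC⟩ := main
  exact ⟨C, fun z hz => hC z hz ⟨hz.1, mem_univ _⟩⟩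

theorem s4m (hfbr : T_FBR) (hout : T_OUT) : T_S4M := by
  intro n X _ _ ι _ A f I hn hM K hK hKc
  have key : ∀ a, ∃ C : ℝ, 0 ≤ C ∧ ∀ (d : ℕ) (P : MvPolynomial (Fin n) ℂ) (δ : ℝ),
      1 ≤ d → P.totalDegree ≤ d → Nrm P → 0 < δ → δ ≤ 1 →
      ∫⁻ z in (K \ I) ∩ Cb A f a 2, ENNReal.ofReal (|lgd P δ z| * Dm (FF A f a) z)
        ≤ ENNReal.ofReal (C * d) := by
    intro a
    have main : ∃ C : ℝ, 0 ≤ C ∧ ∀ (d : ℕ) (P : MvPolynomial (Fin n) ℂ) (δ : ℝ),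
        1 ≤ d → P.totalDegree ≤ d → Nrm P → 0 < δ → δ ≤ 1 →
        ∫⁻ z in {z | z ∈ K \ I ∧ f z ∈ (A.φ a).source ∧
            (z, A.φ a (f z)) ∈ K ×ˢ Metric.closedBall (0 : V n) 2},
          ENNReal.ofReal (|lgd P δ z| * Dm (FF A f a) z) ≤ ENNReal.ofReal (C * d) := by
      refine IsCompact.induction_on (p := fun S => ∃ C : ℝ, 0 ≤ C ∧
        ∀ (d : ℕ) (P : MvPolynomial (Fin n) ℂ) (δ : ℝ),
        1 ≤ d → P.totalDegree ≤ d → Nrm P → 0 < δ → δ ≤ 1 →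
        ∫⁻ z in {z | z ∈ K \ I ∧ f z ∈ (A.φ a).source ∧ (z, A.φ a (f z)) ∈ S},
          ENNReal.ofReal (|lgd P δ z| * Dm (FF A f a) z) ≤ ENNReal.ofReal (C * d))
        (hKc.prod (isCompact_closedBall (0 : V n) 2)) ?_ ?_ ?_ ?_
      · refine ⟨0, le_rfl, fun d P δ _ _ _ _ _ => ?_⟩
        simp
      · rintro s t hst ⟨C, hC0, hC⟩
        refine ⟨C, hC0, fun d P δ h1 h2 h3 h4 h5 => ?_⟩
        refine (lintegral_mono_set ?_).trans (hC d P δ h1 h2 h3 h4 h5)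
        rintro z ⟨hz1, hz2, hz3⟩
        exact ⟨hz1, hz2, hst hz3⟩
      · rintro s t ⟨C, hC0, hC⟩ ⟨C', hC0', hC'⟩
        refine ⟨C + C', add_nonneg hC0 hC0', fun d P δ h1 h2 h3 h4 h5 => ?_⟩
        rw [add_mul, ENNReal.ofReal_add (by positivity) (by positivity)]
        refine (lintegral_mono_set ?_).trans ((lintegral_union_le _ _ _).trans
          (add_le_add (hC d P δ h1 h2 h3 h4 h5) (hC' d P δ h1 h2 h3 h4 h5)))
        rintro z ⟨hz1, hz2, hz3⟩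
        rcases hz3 with hz3 | hz3
        · exact Or.inl ⟨hz1, hz2, hz3⟩
        · exact Or.inr ⟨hz1, hz2, hz3⟩
      · rintro ⟨z₀, y₀⟩ ⟨hz₀, hy₀⟩
        simp only at hz₀ hy₀
        obtain ⟨r, m, G, l, hL⟩ := hM.loc a z₀ (hK hz₀) y₀
          (Metric.closedBall_subset_closedBall (by norm_num) hy₀)
        obtain ⟨r', ε₀, δ₁, D₀, hF⟩ := hfbr n X ι A f I (Dp n) hn hM a _ r m G l hL
        obtain ⟨ρ, C, hρ, hρr, hC⟩ := hout n X ι A f I hn hM a z₀ y₀ r m G l hy₀ hL r' ε₀ δ₁ D₀ hF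
        refine ⟨Metric.ball z₀ ρ ×ˢ Metric.ball y₀ ρ, mem_nhdsWithin_of_mem_nhds
          (prod_mem_nhds (Metric.ball_mem_nhds _ hρ) (Metric.ball_mem_nhds _ hρ)),
          max C 0, le_max_right _ _, fun d P δ h1 h2 h3 h4 h5 => ?_⟩
        refine (lintegral_mono_set ?_).trans ((hC d P δ h1 h2 h3 h4 h5).trans
          (ENNReal.ofReal_le_ofReal (mul_le_mul_of_nonneg_right (le_max_left _ _)
            (Nat.cast_nonneg _))))
        rintro z ⟨⟨hz1, hz1'⟩, hz2, hz3⟩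
        exact ⟨⟨hK hz1, hz1'⟩, hz2, (append_mem_ball hρ).2 hz3⟩
    obtain ⟨C, hC0, hC⟩ := main
    refine ⟨C, hC0, fun d P δ h1 h2 h3 h4 h5 => ?_⟩
    refine (lintegral_mono_set ?_).trans (hC d P δ h1 h2 h3 h4 h5)
    rintro z ⟨hz1, hz2, hz3⟩
    exact ⟨hz1, hz2, hz1.1, hz3⟩
  choose C hC0 hC using key
  have : Fintype ι := Fintype.ofFinite ι
  refine ⟨∑ a, C a, fun d P δ h1 h2 h3 h4 h5 a => (hC a d P δ h1 h2 h3 h4 h5).trans ?_⟩
  refine ENNReal.ofReal_le_ofReal (mul_le_mul_of_nonneg_right ?_ (Nat.cast_nonneg _))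
  exact Finset.single_le_sum (f := C) (fun b _ => hC0 b) (Finset.mem_univ a)

end Pool.Agent.H81.VG
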