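import Mathlib
import Pool.Agent.H95.VG.Targets1
import Pool.Agent.H95.VG.Targets5
import Pool.Agent.H81.VG.S3M

/-!
# VG module FCC: finitely many components near a point of the graph
-/

open MeasureTheory Set Filter Topology
open scoped ENNReal NNReal ContDiff ComplexConjugate

namespace Pool.Agent.H81.VG

open Pool.Agent.H95.VG

theorem ej_pos (j : ℕ) : 0 < ej j := by unfold ej; positivity

theorem ej_le_one (j : ℕ) : ej j ≤ 1 := by
  unfold ej
  rw [div_le_one (by positivity)]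
  have : (0 : ℝ) ≤ j := Nat.cast_nonneg j
  linarith

theorem ej_inj : Function.Injective ej := by
  intro i j h
  unfold ej at h
  have hi : (0 : ℝ) < (i : ℝ) + 1 := by positivity
  have hj : (0 : ℝ) < (j : ℝ) + 1 := by positivity
  field_simp at h
  have : (i : ℝ) = j := by linarith
  exact_mod_cast this

theorem ej_tendsto : Tendsto ej atTop (𝓝 0) := tendsto_one_div_add_atTop_nhds_zero_nat

/-- bound for the perturbed projections near the centre -/
theorem exists_rho {n : ℕ} {P : V (n + n)} {r δ₁ : ℝ} (hr : 0 < r) (hδ : 0 < δ₁)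
    {l : V (n + n) → V n} (hl : DifferentiableOn ℂ l (Metric.ball P r)) (l0 : l P = 0)
    (r' : ℝ) (hr' : 0 < r') :
    ∃ ρ : ℝ, 0 < ρ ∧ ρ < r' ∧ ∀ Z ∈ Metric.ball P ρ, ∀ (Φ) (ε : ℝ), 0 ≤ ε → ε ≤ 1 →
      ‖YY l P Φ ε Z‖ < δ₁ := by
  have hc : ContinuousAt l P :=
    (hl.continuousOn.continuousAt (Metric.isOpen_ball.mem_nhds (Metric.mem_ball_self hr)))
  rw [Metric.continuousAt_iff] at hc
  obtain ⟨ρ₁, hρ₁, h1⟩ := hc (δ₁ / 2) (by positivity)
  refine ⟨min ρ₁ (min (δ₁ / 2) (r' / 2)), by positivity, ?_, ?_⟩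
  · exact ((min_le_right _ _).trans (min_le_right _ _)).trans_lt (by linarith)
  intro Z hZ Φ ε he0 he1
  rw [Metric.mem_ball] at hZ
  have hZ1 : dist Z P < ρ₁ := hZ.trans_le (min_le_left _ _)
  have hZ2 : dist Z P < δ₁ / 2 := hZ.trans_le ((min_le_right _ _).trans (min_le_left _ _))
  have h2 := h1 hZ1
  rw [l0, dist_zero_right] at h2
  rw [pi_norm_lt_iff hδ]
  intro i
  unfold YY
  have h3 : ‖l Z i‖ ≤ ‖l Z‖ := norm_le_pi_norm _ _
  have h4 : ‖Z (finSumFinEquiv (Φ i)) - P (finSumFinEquiv (Φ i))‖ ≤ dist Z P := by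
    rw [dist_eq_norm]
    exact norm_le_pi_norm (Z - P) _
  calc ‖l Z i + (ε : ℂ) * (Z (finSumFinEquiv (Φ i)) - P (finSumFinEquiv (Φ i)))‖
      ≤ ‖l Z i‖ + ‖(ε : ℂ) * (Z (finSumFinEquiv (Φ i)) - P (finSumFinEquiv (Φ i)))‖ :=
        norm_add_le _ _
    _ ≤ ‖l Z‖ + 1 * dist Z P := by
        rw [norm_mul]
        refine add_le_add h3 (mul_le_mul ?_ h4 (norm_nonneg _) zero_le_one)
        rw [Complex.norm_real, Real.norm_eq_abs, abs_of_nonneg he0]
        exact he1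
    _ < δ₁ := by linarith

theorem jac_mix_inl {n : ℕ} (F : V n → V n) (z : V n) :
    jac (mix (fun i => Sum.inl i) F) z = 1 := by
  have : mix (fun i => Sum.inl i) F = fun x => x := by
    funext x i
    rfl
  rw [this]
  ext i j
  have h : fderiv ℂ (fun x : V n => x) z = ContinuousLinearMap.id ℂ (V n) := fderiv_fun_id
  simp only [jac, Matrix.of_apply, h, ContinuousLinearMap.id_apply, ek]
  rw [Matrix.one_apply, Pi.single_apply]

/-- all but finitely many perturbations are nondegenerate -/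
theorem finite_bad {n : ℕ} (M : Matrix (Fin n) (Fin n) ℂ) :
    {j : ℕ | (M + ((ej j : ℝ) : ℂ) • (1 : Matrix (Fin n) (Fin n) ℂ)).det = 0}.Finite := by
  have hroots : {t : ℂ | (-M).charpoly.IsRoot t}.Finite := by
    have hne : (-M).charpoly ≠ 0 := (Matrix.charpoly_monic (-M)).ne_zero
    exact Polynomial.finite_setOfPred_isRoot hne
  have hinj : Function.Injective (fun j : ℕ => ((ej j : ℝ) : ℂ)) := by
    intro i j h
    exact ej_inj (Complex.ofReal_injective h)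
  refine (hroots.preimage hinj.injOn).subset ?_
  intro j hj
  simp only [mem_preimage, mem_setOf_eq, Polynomial.IsRoot.def]
  rw [Matrix.eval_charpoly]
  simp only [mem_setOf_eq] at hj
  rw [← hj]
  congr 1
  rw [sub_neg_eq_add, add_comm]
  congr 1
  rw [Matrix.scalar_apply, Matrix.smul_one_eq_diagonal]

/-- open image of a map with nonzero Jacobian determinant -/
theorem image_mem_nhds {n : ℕ} {O : Set (V n)} (hO : IsOpen O) {Y : V n → V n}
    (hY : ContDiffOn ℂ ∞ Y O) {z : V n} (hz : z ∈ O) (hdet : (jac Y z).det ≠ 0)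
    {S : Set (V n)} (hS : S ∈ 𝓝 z) : Y '' S ∈ 𝓝 (Y z) := by
  have hs : HasStrictFDerivAt Y (fderiv ℂ Y z) z :=
    ((hY.contDiffAt (hO.mem_nhds hz)).hasStrictFDerivAt (by simp))
  have hsurj : (fderiv ℂ Y z).range = ⊤ := by
    have hmat : LinearMap.toMatrix' ((fderiv ℂ Y z : V n →L[ℂ] V n) : V n →ₗ[ℂ] V n) = jac Y z := by
      ext i j
      rw [LinearMap.toMatrix'_apply]
      simp only [jac, Matrix.of_apply, ek]
      rfl
    have hlin : Matrix.toLin' (jac Y z) = ((fderiv ℂ Y z : V n →L[ℂ] V n) : V n →ₗ[ℂ] V n) := by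
      rw [← hmat, Matrix.toLin'_toMatrix']
    have hu : IsUnit (jac Y z).det := isUnit_iff_ne_zero.2 hdet
    rw [eq_top_iff]
    rintro w -
    refine ⟨(jac Y z)⁻¹.mulVec w, ?_⟩
    have : ((fderiv ℂ Y z : V n →L[ℂ] V n) : V n →ₗ[ℂ] V n) ((jac Y z)⁻¹.mulVec w) = w := by
      rw [← hlin, Matrix.toLin'_apply, Matrix.mulVec_mulVec, Matrix.mul_nonsing_inv _ hu,
        Matrix.one_mulVec]
    exact this
  have := hs.map_nhds_eq_of_surj hsurj
  rw [← this]
  exact image_mem_map hS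

theorem fcc (hsmo : T_SMO) (hmop : T_MOP) (hjac : T_JAC) (hlcc : T_LCC) : T_FCC := by
  intro n X _ _ ι _ A f I D hn hM a z₀ y₀ r m G l hy₀ hL r' ε₀ δ₁ D₀ hF
  obtain ⟨hr'0, hr'r, hε₀, hε₁, hδ₁⟩ := hF.pos
  set P : V (n + n) := Fin.append z₀ y₀ with hP
  obtain ⟨ρ, hρ, hρr', hρY⟩ := exists_rho hL.rpos hδ₁ hL.lhol hL.l0 r' hr'0
  refine ⟨ρ, hρ, hρr', fun σ hσ => ?_⟩
  obtain ⟨-, -, hopen, -⟩ := hmop n X ι A f I D hM
  set O := Ug A f I D a P r' with hO
  have hOopen : IsOpen O := hopen a P r'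
  have hFd : DifferentiableOn ℂ (FF A f a) O :=
    (hM.hol a).mono (fun z hz => ⟨hz.1, hz.2.1⟩)
  by_contra hcon
  rw [not_le] at hcon
  have hcard : ((D₀ + 1 : ℕ) : ℕ∞) ≤ (σ '' Ug A f I D a P ρ).encard := by
    rw [Nat.cast_add, Nat.cast_one]
    exact Order.add_one_le_of_lt hcon
  obtain ⟨T, hTsub, hTcard⟩ := Set.exists_subset_encard_eq hcard
  have hTfin : T.Finite := Set.finite_of_encard_eq_coe hTcard
  have hpt : ∀ s : T, ∃ z ∈ Ug A f I D a P ρ, σ z = s.1 := by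
    rintro ⟨s, hs⟩
    obtain ⟨z, hz, hzs⟩ := hTsub hs
    exact ⟨z, hz, hzs⟩
  choose zs hzs hσs using hpt
  have : Finite T := hTfin
  have hUgsub : Ug A f I D a P ρ ⊆ O := by
    rintro z ⟨h1, h2, h3⟩
    exact ⟨h1, h2, Metric.ball_subset_ball hρr'.le h3⟩
  -- choice of `j`
  have hZr : ∀ z ∈ O, Zf (FF A f a) z ∈ Metric.ball P r := fun z hz =>
    Metric.ball_subset_ball hr'r.le hz.2.2
  have hFat : ∀ z ∈ O, DifferentiableAt ℂ (FF A f a) z := fun z hz =>
    hFd.differentiableAt (hOopen.mem_nhds hz)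
  have hev : ∀ᶠ j : ℕ in atTop, ej j ≤ ε₀ ∧ ∀ s : T,
      (jac (fun x => YY l P (fun i => Sum.inl i) (ej j) (Zf (FF A f a) x)) (zs s)).det ≠ 0 := by
    refine Eventually.and ?_ ?_
    · exact (ej_tendsto.eventually_lt_const hε₀).mono fun j hj => hj.le
    · rw [Filter.eventually_all]
      intro s
      have hfb := finite_bad (jac (fun x => l (Zf (FF A f a) x)) (zs s))
      rw [← Nat.cofinite_eq_atTop]
      filter_upwards [hfb.compl_mem_cofinite] with j hj
      have := (hjac n (FF A f a) (zs s) P r l (hFat _ (hUgsub (hzs s))) hL.lhol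
        (hZr _ (hUgsub (hzs s))) (fun i => Sum.inl i) (ej j)).2
      rw [this, jac_mix_inl]
      exact hj
  obtain ⟨j, hj, hdet⟩ := hev.exists
  set Φ : Fin n → Fin n ⊕ Fin n := fun i => Sum.inl i with hΦ
  set Y : V n → V n := fun x => YY l P Φ (ej j) (Zf (FF A f a) x) with hYdef
  have hYd : DifferentiableOn ℂ Y O := fun z hz =>
    ((hjac n (FF A f a) z P r l (hFat z hz) hL.lhol (hZr z hz) Φ (ej j)).1).differentiableWithinAt
  have hYs : ContDiffOn ℂ ∞ Y O := (hsmo n (V n) O Y hOopen hYd).1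
  have hN : ∀ s : T, ∃ N : ℕ, ∀ᵐ w ∂(volume.restrict (Metric.ball (0 : V n) δ₁)),
      {z | z ∈ O ∧ σ z = s.1 ∧ Y z = w}.encard = N := fun s =>
    hlcc n X ι A f I D hn hM a z₀ y₀ r m G l hy₀ hL r' ε₀ δ₁ D₀ hF σ s.1 Φ j hj hσ
  choose N hN using hN
  have hN1 : ∀ s : T, 1 ≤ N s := by
    intro s
    have hS : {z | z ∈ O ∧ σ z = s.1} ∈ 𝓝 (zs s) := by
      have h1 := hOopen.mem_nhds (hUgsub (hzs s))
      have h2 := hσ (zs s) (hUgsub (hzs s))
      filter_upwards [h1, h2] with z hz1 hz2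
      exact ⟨hz1, hz2.trans (hσs s)⟩
    have him := image_mem_nhds hOopen hYs (hUgsub (hzs s)) (hdet s) hS
    have hYz : Y (zs s) ∈ Metric.ball (0 : V n) δ₁ := by
      rw [mem_ball_zero_iff]
      exact hρY _ (hzs s).2.2 Φ (ej j) (ej_pos j).le (ej_le_one j)
    have hW : (Y '' {z | z ∈ O ∧ σ z = s.1}) ∩ Metric.ball (0 : V n) δ₁ ∈ 𝓝 (Y (zs s)) :=
      inter_mem him (Metric.isOpen_ball.mem_nhds hYz)
    have hpos : 0 < volume ((Y '' {z | z ∈ O ∧ σ z = s.1}) ∩ Metric.ball (0 : V n) δ₁) :=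
      Measure.measure_pos_of_mem_nhds volume hW
    have hae := hN s
    rw [ae_restrict_iff' Metric.isOpen_ball.measurableSet] at hae
    obtain ⟨w, ⟨hw1, hw2⟩, hw3⟩ : ∃ w ∈ (Y '' {z | z ∈ O ∧ σ z = s.1}) ∩
        Metric.ball (0 : V n) δ₁, w ∈ Metric.ball (0 : V n) δ₁ →
          {z | z ∈ O ∧ σ z = s.1 ∧ Y z = w}.encard = N s := by
      by_contra hno
      push Not at hno
      have hsub : (Y '' {z | z ∈ O ∧ σ z = s.1}) ∩ Metric.ball (0 : V n) δ₁ ⊆
          {w | ¬ (w ∈ Metric.ball (0 : V n) δ₁ →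
            {z | z ∈ O ∧ σ z = s.1 ∧ Y z = w}.encard = N s)} := by
        intro w hw
        simp only [mem_setOf_eq, Classical.not_imp]
        exact hno w hw
      have := measure_mono_null hsub (ae_iff.1 hae)
      exact hpos.ne' this
    obtain ⟨z, ⟨hz1, hz2⟩, hz3⟩ := hw1
    have hne : {z | z ∈ O ∧ σ z = s.1 ∧ Y z = w}.Nonempty := ⟨z, hz1, hz2, hz3⟩
    have := Set.one_le_encard_iff_nonempty.2 hne
    rw [hw3 hw2] at this
    exact_mod_cast this
  -- conclusion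
  have hall : ∀ᵐ w ∂(volume.restrict (Metric.ball (0 : V n) δ₁)),
      ∀ s : T, {z | z ∈ O ∧ σ z = s.1 ∧ Y z = w}.encard = N s := by
    rw [ae_all_iff]
    exact hN
  have hcnt := hF.cnt Φ j hj
  have : NeZero (volume.restrict (Metric.ball (0 : V n) δ₁)) := by
    constructor
    rw [Ne, Measure.restrict_eq_zero]
    exact (Metric.measure_ball_pos volume _ hδ₁).ne'
  obtain ⟨w, hw1, hw2⟩ := (hall.and hcnt).exists
  have hne : ∀ s : T, ∃ z, z ∈ O ∧ σ z = s.1 ∧ Y z = w := by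
    intro s
    have h1 : 1 ≤ {z | z ∈ O ∧ σ z = s.1 ∧ Y z = w}.encard := by
      rw [hw1 s]
      exact_mod_cast hN1 s
    exact Set.one_le_encard_iff_nonempty.1 h1
  choose q hq1 hq2 hq3 using hne
  have hqinj : Function.Injective q := by
    intro s t h
    apply Subtype.ext
    rw [← hq2 s, ← hq2 t, h]
  have hrange : Set.range q ⊆ {z | z ∈ O ∧ Y z = w} := by
    rintro _ ⟨s, rfl⟩
    exact ⟨hq1 s, hq3 s⟩
  have h1 : (Set.range q).encard ≤ D₀ := (Set.encard_le_encard hrange).trans hw2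
  have h2 : (Set.range q).encard = T.encard := by
    rw [← Set.image_univ, hqinj.encard_image, Set.encard_univ]
    rfl
  rw [h2, hTcard] at h1
  have : D₀ + 1 ≤ D₀ := by exact_mod_cast h1
  omega

end Pool.Agent.H81.VG
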