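import Mathlib
import Pool.Agent.H95.VG.Targets1
import Pool.Agent.H95.VG.Targets5
import Pool.Agent.H30.VG.Sh
import Pool.Agent.H73.VG.LSY
import Pool.Agent.H78.VG.MOP

/-!
# VG module LCE: energy of `log |g|` on the graph
-/

open MeasureTheory Set Filter Topology
open scoped ENNReal NNReal ContDiff ComplexConjugate

namespace Pool.Agent.H81.VG.LCE

open Pool.Agent.H95.VG Pool.Agent.H30.VG.Sh Pool.Agent.H30.VG.CUT Pool.Agent.H73.VG
  Pool.Agent.H78.VG

variable {n : ℕ}

theorem Dm_nonneg (Y : V n → V n) (z : V n) : 0 ≤ Dm Y z :=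
  Finset.sum_nonneg fun _ _ => by positivity

theorem contDiffOn_Zf {k : WithTop ℕ∞} {F : V n → V n} {O : Set (V n)}
    (hF : ContDiffOn ℝ k F O) : ContDiffOn ℝ k (Zf F) O := by
  rw [contDiffOn_pi]
  intro i
  refine Fin.addCases (fun i => ?_) (fun i => ?_) i
  · simp only [Zf, Fin.append_left]
    exact (contDiff_apply ℝ ℂ i).contDiffOn
  · simp only [Zf, Fin.append_right]
    exact (contDiffOn_pi.1 hF i)

theorem differentiableOn_mix {F : V n → V n} {O : Set (V n)} (hF : DifferentiableOn ℂ F O)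
    (Φ : Fin n → Fin n ⊕ Fin n) : DifferentiableOn ℂ (mix Φ F) O := by
  rw [differentiableOn_pi]
  intro i
  unfold mix
  rcases h : Φ i with j | j
  · simp only [Sum.elim_inl]
    exact (differentiable_apply j).differentiableOn
  · simp only [Sum.elim_inr]
    exact differentiableOn_pi.1 hF j

/-- the truncated graph over a compact set is compact -/
theorem graph_piece_compact {X : Type} [TopologicalSpace X] [T2Space X] {ι : Type}
    (A : Atl n X ι) (f : V n → X) (I D : Set (V n)) (hM : Mro A f I D) (a : ι)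
    {K : Set (V n)} (hK : IsCompact K) (hKD : K ⊆ D \ I) {y₀ : V n} {b : ℝ}
    (hb : Metric.closedBall y₀ b ⊆ Metric.closedBall (0 : V n) 3) :
    IsCompact (K ∩ {z | f z ∈ (A.φ a).source ∧ A.φ a (f z) ∈ Metric.closedBall y₀ b}) := by
  have h1 : IsCompact ((A.φ a).symm '' Metric.closedBall y₀ b) :=
    (isCompact_closedBall y₀ b).image_of_continuousOn
      ((A.φ a).continuousOn_symm.mono (hb.trans (A.ball a)))
  have h2 : {z | f z ∈ (A.φ a).source ∧ A.φ a (f z) ∈ Metric.closedBall y₀ b} =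
      f ⁻¹' ((A.φ a).symm '' Metric.closedBall y₀ b) := by
    ext z
    constructor
    · rintro ⟨h3, h4⟩
      exact ⟨A.φ a (f z), h4, (A.φ a).left_inv h3⟩
    · rintro ⟨y, hy, hyz⟩
      have hy' := A.ball a (hb hy)
      have h5 : f z ∈ (A.φ a).source := by
        rw [← hyz]
        exact (A.φ a).map_target hy'
      refine ⟨h5, ?_⟩
      rw [← hyz, (A.φ a).right_inv hy']
      exact hy
  rw [h2]
  have h3 : ContinuousOn f K := hM.cont.mono hKD
  have h4 : IsClosed (K ∩ f ⁻¹' ((A.φ a).symm '' Metric.closedBall y₀ b)) :=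
    h3.preimage_isClosed_of_isClosed hK.isClosed h1.isClosed
  exact hK.of_isClosed_subset h4 inter_subset_left

theorem lce (hsmo : T_SMO) (hprd : T_PRD) (hpio : T_PIO) (hmop : T_MOP) (hlsy : T_LSY)
    (hlgg : T_LGG) (hlzb : T_LZB) : T_LCE := by
  intro n X _ _ ι A f I D hn hM a z₀ y₀ ρ ρ' m g c₀ hρ' hρρ hρ4 hball hy₀ hg hgI hgc hDm
  set P : V (n + n) := Fin.append z₀ y₀ with hP
  set F : V n → V n := FF A f a with hFdef
  set O := Ug A f I D a P ρ with hOdef
  have hρ0 : 0 < ρ := hρ'.trans hρρ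
  have hO : IsOpen O := (hmop n X ι A f I D hM).2.2.1 a P ρ
  have hFd : DifferentiableOn ℂ F O := (hM.hol a).mono (fun z hz => ⟨hz.1, hz.2.1⟩)
  have hFs : ContDiffOn ℝ ∞ F O := (hsmo n (V n) O F hO hFd).2.1
  have hFs2 : ContDiffOn ℝ 2 F O := hFs.of_le (WithTop.coe_le_coe.2 le_top)
  set v : V n → ℝ := fun z => Real.log (nsq (g z)) / 2 with hv
  have hOb : ∀ z ∈ O, z ∈ Metric.ball z₀ ρ := fun z hz => ((append_mem_ball hρ0).1 hz.2.2).1
  have hOg : ∀ z ∈ O, g z ≠ 0 := fun z hz h => hz.1.2 ((hgI z (hOb z hz)).2 h)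
  have hvc : ∀ z ∈ O, v z ≤ c₀ := fun z hz => hgc z ⟨hOb z hz, hz.1.2⟩
  obtain ⟨hv1, hv2⟩ := hlgg n m (Metric.ball z₀ ρ) g Metric.isOpen_ball hg
  have hvs : ContDiffOn ℝ 2 v O := (hv1.mono (fun z hz => ⟨hOb z hz, hOg z hz⟩)).of_le
    (WithTop.coe_le_coe.2 le_top)
  have hvat : ∀ z ∈ O, ContDiffAt ℝ 2 v z := fun z hz => hvs.contDiffAt (hO.mem_nhds hz)
  have hvcont : ContinuousOn v O := hvs.continuousOn
  have hlev : ∀ z ∈ O, ∀ w, 0 ≤ lev v z w := fun z hz w => hv2 z (hOb z hz) (hOg z hz) w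
  -- the cutoff `Θ`
  obtain ⟨ρ₂, hρ₂1, hρ₂2⟩ := exists_between hρρ
  set B : ContDiffBump P := ⟨ρ', ρ₂, hρ', hρ₂1⟩ with hB
  have hΘs : ContDiff ℝ ∞ (B : V (n + n) → ℝ) := B.contDiff
  have hΘs2 : ContDiff ℝ 2 (B : V (n + n) → ℝ) := B.contDiff
  obtain ⟨C, hC0, hC⟩ := hlzb n B hΘs B.hasCompactSupport
  set M : ℝ := (∫⁻ z in O, ENNReal.ofReal (Dm F z)).toReal with hMdef
  have hM' : ∫⁻ z in O, ENNReal.ofReal (Dm F z) = ENNReal.ofReal M :=
    (ENNReal.ofReal_toReal hDm.ne).symm
  refine ⟨27 * C * M / 6, fun t ht Φ k => ?_⟩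
  have ht0 : 0 < t := by linarith
  set W : V n → V n := cf (mix Φ F) k with hW
  obtain ⟨hWd, hWdiv⟩ := hpio n O (mix Φ F) hO (differentiableOn_mix hFd Φ) k
  obtain ⟨hT1, hT2, hT3⟩ := cub_facts t (t ^ 2) (3 - c₀ / t) ht0
  set T : ℝ → ℝ := fun s => t ^ 2 * (max (s / t + (3 - c₀ / t)) 0) ^ 3 with hT
  set η : ℝ → ℝ := fun s => Real.smoothTransition (s - c₀ + 3 * t + 2) with hη
  have hηs : ContDiff ℝ 2 η :=
    Real.smoothTransition.contDiff.comp (((contDiff_id.sub contDiff_const).add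
      contDiff_const).add contDiff_const)
  set φ : V n → ℝ := O.indicator (fun z => B (Zf F z) * η (v z)) with hφ
  set G : V n → ℝ := fun z => T (v z) with hG
  -- compact support
  set κ : ℝ := Real.exp (2 * (c₀ - 3 * t - 2)) with hκ
  have hκ0 : 0 < κ := Real.exp_pos _
  have hcb : Metric.closedBall z₀ ρ₂ ⊆ Metric.ball z₀ ρ := Metric.closedBall_subset_ball hρ₂2
  have hnsqc : Continuous (nsq (n := m)) := by unfold nsq; fun_prop
  set K₁ : Set (V n) := Metric.closedBall z₀ ρ₂ ∩ (fun z => nsq (g z)) ⁻¹' Ici κ with hK₁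
  have hK₁c : IsCompact K₁ := by
    have h1 : ContinuousOn (fun z => nsq (g z)) (Metric.closedBall z₀ ρ₂) :=
      hnsqc.comp_continuousOn (hg.continuousOn.mono hcb)
    exact (isCompact_closedBall z₀ ρ₂).of_isClosed_subset
      (h1.preimage_isClosed_of_isClosed Metric.isClosed_closedBall isClosed_Ici) inter_subset_left
  have hK₁D : K₁ ⊆ D \ I := by
    rintro z ⟨hz1, hz2⟩
    refine ⟨hball (hcb hz1), fun hzI => ?_⟩
    have h1 := (hgI z (hcb hz1)).1 hzI
    have h2 : κ ≤ nsq (g z) := hz2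
    rw [h1] at h2
    have h3 : nsq (0 : V m) = 0 := by simp [nsq]
    linarith
  have hcb3 : Metric.closedBall y₀ ρ₂ ⊆ Metric.closedBall (0 : V n) 3 := by
    intro y hy
    rw [mem_closedBall_iff_norm] at hy
    rw [mem_closedBall_zero_iff] at hy₀ ⊢
    have := norm_add_le (y - y₀) y₀
    simp only [sub_add_cancel] at this
    linarith
  set K := K₁ ∩ {z | f z ∈ (A.φ a).source ∧ A.φ a (f z) ∈ Metric.closedBall y₀ ρ₂} with hK
  have hKc : IsCompact K := graph_piece_compact A f I D hM a hK₁c hK₁D hcb3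
  have hKO : K ⊆ O := by
    rintro z ⟨hz1, hz2, hz3⟩
    refine ⟨hK₁D hz1, hz2, (append_mem_ball hρ0).2 ⟨hcb hz1.1, ?_⟩⟩
    exact Metric.closedBall_subset_ball hρ₂2 hz3
  have hφ0 : ∀ z ∉ K, φ z = 0 := by
    intro z hz
    by_contra hne
    apply hz
    have hzO : z ∈ O := by
      by_contra h
      exact hne (indicator_of_notMem h _)
    rw [hφ, indicator_of_mem hzO] at hne
    have h1 : B (Zf F z) ≠ 0 := fun h => hne (by rw [h, zero_mul])
    have h2 : η (v z) ≠ 0 := fun h => hne (by rw [h, mul_zero])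
    have h3 : Zf F z ∈ Metric.ball P ρ₂ := by
      have : Zf F z ∈ Function.support B := h1
      rwa [B.support_eq] at this
    have h4 := (append_mem_ball (hρ'.trans hρ₂1)).1 h3
    have h5 : 0 < v z - c₀ + 3 * t + 2 := by
      by_contra h
      exact h2 (Real.smoothTransition.zero_of_nonpos (not_lt.1 h))
    refine ⟨⟨Metric.ball_subset_closedBall h4.1, ?_⟩, hzO.2.1, Metric.ball_subset_closedBall h4.2⟩
    have hpos : 0 < nsq (g z) := by
      rcases (Finset.sum_nonneg (fun i _ => by positivity) : 0 ≤ nsq (g z)).lt_or_eq with h | h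
      · exact h
      · exfalso
        apply hOg z hzO
        funext i
        have h6 := (Finset.sum_eq_zero_iff_of_nonneg (fun i _ => by positivity)).1 h.symm i
          (Finset.mem_univ i)
        simpa using h6
    show κ ≤ nsq (g z)
    rw [hκ, ← Real.le_log_iff_exp_le hpos]
    have h7 : v z = Real.log (nsq (g z)) / 2 := rfl
    linarith
  have hφO : ContDiffOn ℝ 2 φ O := by
    have h1 : ContDiffOn ℝ 2 (fun z => B (Zf F z) * η (v z)) O :=
      (hΘs2.comp_contDiffOn (contDiffOn_Zf hFs2)).mul (hηs.comp_contDiffOn hvs)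
    exact h1.congr (fun z hz => indicator_of_mem hz _)
  obtain ⟨hφ1, hφ2, hφ3⟩ := ext_contDiff (m := 2) hO hKc hKO hφO hφ0
  have hGs : ContDiffOn ℝ 2 G O := hT1.comp_contDiffOn hvs
  obtain ⟨hI1, hI2, hI3⟩ := hlsy n O W φ G hO hWd hWdiv hφ1 hφ2 hφ3 hGs
  -- the right hand side
  have hright : ∀ z ∈ O, |G z * lev φ z (W z)| ≤ 27 * t ^ 2 * C * Dm F z := by
    intro z hz
    have hvz := hvc z hz
    by_cases h1 : v z - c₀ + 3 * t ≤ 0
    · have : G z = 0 := by
        simp only [hG, hT]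
        rw [max_eq_right, zero_pow (by norm_num), mul_zero]
        have : v z / t + (3 - c₀ / t) = (v z - c₀ + 3 * t) / t := by field_simp; ring
        rw [this]
        exact div_nonpos_of_nonpos_of_nonneg h1 ht0.le
      rw [this, zero_mul, abs_zero]
      have := Dm_nonneg F z
      positivity
    · rw [not_le] at h1
      have hev : φ =ᶠ[𝓝 z] fun x => B (Zf F x) := by
        have h2 : ∀ᶠ x in 𝓝 z, c₀ - 3 * t - 1 < v x :=
          (hvat z hz).continuousAt.eventually_const_lt (by linarith)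
        filter_upwards [h2, hO.mem_nhds hz] with x hx1 hx2
        rw [hφ, indicator_of_mem hx2]
        have : η (v x) = 1 := Real.smoothTransition.one_of_one_le (by linarith)
        rw [this, mul_one]
      rw [lev_congr hev, abs_mul]
      have h3 := hC O F hO hFd z hz Φ k
      have h4 : |G z| ≤ 27 * t ^ 2 := by
        simp only [hG, hT]
        have h5 : v z / t + (3 - c₀ / t) = (v z - c₀) / t + 3 := by field_simp; ring
        rw [h5]
        have h6 : (v z - c₀) / t ≤ 0 := div_nonpos_of_nonpos_of_nonneg (by linarith) ht0.le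
        have h7 : max ((v z - c₀) / t + 3) 0 ≤ 3 := max_le (by linarith) (by norm_num)
        have h8 : 0 ≤ max ((v z - c₀) / t + 3) 0 := le_max_right _ _
        have h9 : max ((v z - c₀) / t + 3) 0 ^ 3 ≤ 3 ^ 3 := pow_le_pow_left₀ h8 h7 3
        rw [abs_of_nonneg (by positivity)]
        nlinarith [sq_nonneg t]
      calc |G z| * |lev (fun x => B (Zf F x)) z (W z)| ≤ (27 * t ^ 2) * (C * Dm F z) :=
            mul_le_mul h4 h3 (abs_nonneg _) (by positivity)
        _ = 27 * t ^ 2 * C * Dm F z := by ring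
  have hRint : ∫ z in O, G z * lev φ z (W z) ≤ 27 * t ^ 2 * C * M := by
    have h1 : ∫ z in O, G z * lev φ z (W z) ≤ ∫ z in O, |G z * lev φ z (W z)| :=
      (le_abs_self _).trans (by
        have := norm_integral_le_integral_norm (μ := volume.restrict O)
          (fun z => G z * lev φ z (W z))
        simpa only [Real.norm_eq_abs] using this)
    refine h1.trans ?_
    have h2 : ∫ z in O, |G z * lev φ z (W z)| =
        (∫⁻ z in O, ENNReal.ofReal |G z * lev φ z (W z)|).toReal := by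
      rw [integral_eq_lintegral_of_nonneg_ae (Eventually.of_forall fun z => abs_nonneg _)]
      exact hI2.abs.aestronglyMeasurable
    rw [h2]
    have h3 : ∫⁻ z in O, ENNReal.ofReal |G z * lev φ z (W z)| ≤
        ENNReal.ofReal (27 * t ^ 2 * C * M) := by
      have h4 : ∫⁻ z in O, ENNReal.ofReal |G z * lev φ z (W z)| ≤
          ∫⁻ z in O, ENNReal.ofReal (27 * t ^ 2 * C) * ENNReal.ofReal (Dm F z) := by
        refine setLIntegral_mono' hO.measurableSet fun z hz => ?_
        rw [← ENNReal.ofReal_mul (by positivity)]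
        exact ENNReal.ofReal_le_ofReal (hright z hz)
      refine h4.trans ?_
      rw [lintegral_const_mul' _ _ ENNReal.ofReal_ne_top, hM', ← ENNReal.ofReal_mul (by positivity)]
    have h5 : 0 ≤ M := ENNReal.toReal_nonneg
    calc (∫⁻ z in O, ENNReal.ofReal |G z * lev φ z (W z)|).toReal
        ≤ (ENNReal.ofReal (27 * t ^ 2 * C * M)).toReal :=
          ENNReal.toReal_mono ENNReal.ofReal_ne_top h3
      _ = 27 * t ^ 2 * C * M := ENNReal.toReal_ofReal (by positivity)
  -- the left hand side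
  have hφnn : ∀ z, 0 ≤ φ z := by
    intro z
    refine indicator_nonneg (fun z _ => ?_) z
    exact mul_nonneg B.nonneg (Real.smoothTransition.nonneg _)
  have hlevG : ∀ z ∈ O, lev G z (W z) = deriv T (v z) * lev v z (W z) +
      deriv (deriv T) (v z) * ge v z (W z) := fun z hz =>
    (hprd n z (W z)).2.2.2.2 T v hT1.contDiffAt (hvat z hz)
  have hd1 : ∀ s, 0 ≤ deriv T s := by
    intro s
    rw [hT2]
    positivity
  have hd2 : ∀ s, 0 ≤ deriv (deriv T) s := by
    intro s
    rw [hT3]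
    positivity
  have hge : ∀ z w, 0 ≤ ge v z w := fun z w => by unfold ge; positivity
  have hleft0 : ∀ z ∈ O, 0 ≤ φ z * lev G z (W z) := by
    intro z hz
    rw [hlevG z hz]
    exact mul_nonneg (hφnn z) (add_nonneg (mul_nonneg (hd1 _) (hlev z hz _))
      (mul_nonneg (hd2 _) (hge _ _)))
  set S := Ug A f I D a P ρ' ∩ {z | -2 * t ≤ Real.log (nsq (g z)) / 2 - c₀} with hS
  have hSO : S ⊆ O := by
    rintro z ⟨⟨h1, h2, h3⟩, -⟩
    exact ⟨h1, h2, Metric.ball_subset_ball hρρ.le h3⟩
  have hSm : MeasurableSet S := by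
    have h1 : IsOpen (Ug A f I D a P ρ') := (hmop n X ι A f I D hM).2.2.1 a P ρ'
    have h2 : IsOpen (Ug A f I D a P ρ' ∩ v ⁻¹' Iio (c₀ - 2 * t)) := by
      refine ContinuousOn.isOpen_inter_preimage (hvcont.mono ?_) h1 isOpen_Iio
      rintro z ⟨h1, h2, h3⟩
      exact ⟨h1, h2, Metric.ball_subset_ball hρρ.le h3⟩
    have h3 : S = Ug A f I D a P ρ' \ (Ug A f I D a P ρ' ∩ v ⁻¹' Iio (c₀ - 2 * t)) := by
      ext z
      constructor
      · rintro ⟨h4, h5⟩
        refine ⟨h4, fun h6 => ?_⟩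
        have h7 : v z < c₀ - 2 * t := h6.2
        have h8 : -2 * t ≤ v z - c₀ := h5
        linarith
      · rintro ⟨h4, h5⟩
        refine ⟨h4, ?_⟩
        show -2 * t ≤ v z - c₀
        by_contra h6
        apply h5
        refine ⟨h4, ?_⟩
        show v z < c₀ - 2 * t
        linarith
    rw [h3]
    exact h1.measurableSet.diff h2.measurableSet
  have hleftS : ∀ z ∈ S, ge v z (W z) ≤ φ z * lev G z (W z) / 6 := by
    intro z hz
    have hzO := hSO hz
    have h1 : -2 * t ≤ v z - c₀ := hz.2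
    have h2 : φ z = 1 := by
      rw [hφ, indicator_of_mem hzO]
      have h3 : B (Zf F z) = 1 :=
        B.one_of_mem_closedBall (Metric.ball_subset_closedBall hz.1.2.2)
      have h4 : η (v z) = 1 := Real.smoothTransition.one_of_one_le (by linarith)
      rw [h3, h4, one_mul]
    have h3 : 6 ≤ deriv (deriv T) (v z) := by
      rw [hT3]
      have h5 : v z / t + (3 - c₀ / t) = (v z - c₀) / t + 3 := by field_simp; ring
      have h6 : -2 ≤ (v z - c₀) / t := by
        rw [le_div_iff₀ ht0]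
        linarith
      have h7 : 1 ≤ max (v z / t + (3 - c₀ / t)) 0 := by
        rw [h5]
        exact le_max_of_le_left (by linarith)
      simp only
      have h8 : t ^ 2 * (6 * max (v z / t + (3 - c₀ / t)) 0 / t ^ 2) =
          6 * max (v z / t + (3 - c₀ / t)) 0 := by
        field_simp
      rw [h8]
      linarith
    rw [h2, one_mul, hlevG z hzO]
    have h4 := mul_nonneg (hd1 (v z)) (hlev z hzO (W z))
    have h5 := mul_le_mul_of_nonneg_right h3 (hge z (W z))
    linarith
  have hfinal : ∫⁻ z in S, ENNReal.ofReal (ge v z (W z)) ≤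
      ENNReal.ofReal (27 * C * M / 6 * t ^ 2) := by
    calc ∫⁻ z in S, ENNReal.ofReal (ge v z (W z))
        ≤ ∫⁻ z in S, ENNReal.ofReal (φ z * lev G z (W z) / 6) :=
          setLIntegral_mono' hSm fun z hz => ENNReal.ofReal_le_ofReal (hleftS z hz)
      _ ≤ ∫⁻ z in O, ENNReal.ofReal (φ z * lev G z (W z) / 6) := lintegral_mono_set hSO
      _ = ENNReal.ofReal (∫ z in O, φ z * lev G z (W z) / 6) := by
          rw [ofReal_integral_eq_lintegral_ofReal (hI1.div_const 6)]
          rw [EventuallyLE, ae_restrict_iff' hO.measurableSet]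
          exact Eventually.of_forall fun z hz => div_nonneg (hleft0 z hz) (by norm_num)
      _ ≤ ENNReal.ofReal (27 * C * M / 6 * t ^ 2) := by
          refine ENNReal.ofReal_le_ofReal ?_
          rw [integral_div, hI3]
          rw [div_le_iff₀ (by norm_num)]
          calc ∫ z in O, G z * lev φ z (W z) ≤ 27 * t ^ 2 * C * M := hRint
            _ = 27 * C * M / 6 * t ^ 2 * 6 := by ring
  exact hfinal

end Pool.Agent.H81.VG.LCE
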