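import Mathlib
import Pool.Agent.H95.VG.Targets1

/-!
# VG module LSB, part A: the area formula for real valued sums over the fibres
-/

open MeasureTheory Set Filter Topology
open scoped ENNReal NNReal ContDiff ComplexConjugate

namespace Pool.Agent.H81.VG.LSB

open Pool.Agent.H95.VG

variable {n : ℕ}

/-- sum over the fibre -/
noncomputable def fs (O : Set (V n)) (Y : V n → V n) (h : V n → ℝ) (w : V n) : ℝ :=
  ∑ᶠ z ∈ {z | z ∈ O ∧ Y z = w}, h z

/-- sum over the regular points of the fibre -/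
noncomputable def Us (O : Set (V n)) (Y : V n → V n) (h : V n → ℝ≥0∞) (w : V n) : ℝ≥0∞ :=
  ∑' z : {z // z ∈ O ∧ Y z = w ∧ (jac Y z).det ≠ 0}, h z.1

theorem Us_eq {O : Set (V n)} {Y : V n → V n} {w : V n} (hfin : {z | z ∈ O ∧ Y z = w}.Finite)
    (hreg : ∀ z ∈ O, Y z = w → (jac Y z).det ≠ 0) (h : V n → ℝ≥0∞) :
    Us O Y h w = ∑ z ∈ hfin.toFinset, h z := by
  unfold Us
  have hs : {z | z ∈ O ∧ Y z = w ∧ (jac Y z).det ≠ 0} = (hfin.toFinset : Set (V n)) := by
    ext z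
    simp only [Finite.coe_toFinset]
    constructor
    · rintro ⟨h1, h2, -⟩
      exact ⟨h1, h2⟩
    · rintro ⟨h1, h2⟩
      exact ⟨h1, h2, hreg z h1 h2⟩
  have h2 : ∑' z : {z | z ∈ O ∧ Y z = w ∧ (jac Y z).det ≠ 0}, h z.1 =
      ∑' z : (hfin.toFinset : Set (V n)), h z.1 := by rw [hs]
  exact h2.trans (Finset.tsum_subtype' _ _)

theorem fs_eq_sum {O : Set (V n)} {Y : V n → V n} {w : V n}
    (hfin : {z | z ∈ O ∧ Y z = w}.Finite) (h : V n → ℝ) :
    fs O Y h w = ∑ z ∈ hfin.toFinset, h z := by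
  unfold fs
  exact finsum_mem_eq_finite_toFinset_sum _ hfin

theorem fs_eq {O : Set (V n)} {Y : V n → V n} {w : V n} (hfin : {z | z ∈ O ∧ Y z = w}.Finite)
    (hreg : ∀ z ∈ O, Y z = w → (jac Y z).det ≠ 0) (h : V n → ℝ) :
    fs O Y h w = (Us O Y (fun z => ENNReal.ofReal (h z)) w).toReal -
      (Us O Y (fun z => ENNReal.ofReal (-h z)) w).toReal := by
  rw [Us_eq hfin hreg, Us_eq hfin hreg, fs_eq_sum hfin,
    ENNReal.toReal_sum (fun z _ => ENNReal.ofReal_ne_top),
    ENNReal.toReal_sum (fun z _ => ENNReal.ofReal_ne_top), ← Finset.sum_sub_distrib]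
  refine Finset.sum_congr rfl fun z _ => ?_
  rw [ENNReal.toReal_ofReal', ENNReal.toReal_ofReal']
  rcases le_total 0 (h z) with h1 | h1
  · rw [max_eq_left h1, max_eq_right (by linarith)]
    ring
  · rw [max_eq_right h1, max_eq_left (by linarith)]
    ring

/-- the fibres are good: finite and regular -/
def Good (O : Set (V n)) (Y : V n → V n) (δ : ℝ) : Prop :=
  ∀ᵐ w ∂(volume.restrict (Metric.ball (0 : V n) δ)),
    {z | z ∈ O ∧ Y z = w}.Finite ∧ ∀ z ∈ O, Y z = w → (jac Y z).det ≠ 0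

theorem good_of_card (hare : T_ARE) {O : Set (V n)} {Y : V n → V n} {δ : ℝ} {D₀ : ℕ}
    (hO : IsOpen O) (hY : DifferentiableOn ℂ Y O)
    (h : ∀ᵐ w ∂(volume.restrict (Metric.ball (0 : V n) δ)),
      {z | z ∈ O ∧ Y z = w}.encard ≤ D₀) : Good O Y δ := by
  have h1 := (hare n O O Y (fun _ => 0) hO hY hO.measurableSet Subset.rfl measurable_const).2.2
  have h2 : ∀ᵐ w ∂(volume.restrict (Metric.ball (0 : V n) δ)),
      w ∉ Y '' {z ∈ O | (jac Y z).det = 0} :=
    ae_restrict_of_ae (measure_eq_zero_iff_ae_notMem.1 h1)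
  filter_upwards [h, h2] with w hw1 hw2
  refine ⟨Set.finite_of_encard_le_coe hw1, fun z hz hzw hd => hw2 ⟨z, ⟨hz, hd⟩, hzw⟩⟩

/-- measurability of the fibre sums -/
theorem fs_aesm (hare : T_ARE) {O : Set (V n)} {Y : V n → V n} {δ : ℝ} (hO : IsOpen O)
    (hY : DifferentiableOn ℂ Y O) (hG : Good O Y δ) {h : V n → ℝ} (hh : Measurable h) :
    AEStronglyMeasurable (fs O Y h) (volume.restrict (Metric.ball (0 : V n) δ)) := by
  have h1 := (hare n O O Y (fun z => ENNReal.ofReal (h z)) hO hY hO.measurableSet Subset.rfl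
    hh.ennreal_ofReal).1
  have h2 := (hare n O O Y (fun z => ENNReal.ofReal (-h z)) hO hY hO.measurableSet Subset.rfl
    hh.neg.ennreal_ofReal).1
  have h3 : Measurable (fun w => (Us O Y (fun z => ENNReal.ofReal (h z)) w).toReal -
      (Us O Y (fun z => ENNReal.ofReal (-h z)) w).toReal) := h1.ennreal_toReal.sub h2.ennreal_toReal
  refine h3.aestronglyMeasurable.congr ?_
  filter_upwards [hG] with w hw
  exact (fs_eq hw.1 hw.2 h).symm

theorem Us_zero {O : Set (V n)} {Y : V n → V n} {w : V n} {h : V n → ℝ≥0∞}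
    (h0 : ∀ z ∈ O, Y z = w → h z = 0) : Us O Y h w = 0 := by
  unfold Us
  rw [ENNReal.tsum_eq_zero]
  rintro ⟨z, hz1, hz2, hz3⟩
  exact h0 z hz1 hz2

/-- real valued area formula -/
theorem fs_integral (hare : T_ARE) {O : Set (V n)} {Y : V n → V n} {δ : ℝ} (hO : IsOpen O)
    (hY : DifferentiableOn ℂ Y O) (hG : Good O Y δ) {h : V n → ℝ} (hh : Measurable h)
    (hsupp : ∀ z ∈ O, Y z ∉ Metric.ball (0 : V n) δ → h z = 0)
    (hint : IntegrableOn (fun z => h z * ‖(jac Y z).det‖ ^ 2) O) :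
    IntegrableOn (fs O Y h) (Metric.ball (0 : V n) δ) ∧
    ∫ w in Metric.ball (0 : V n) δ, fs O Y h w = ∫ z in O, h z * ‖(jac Y z).det‖ ^ 2 := by
  obtain ⟨m1, e1, -⟩ := hare n O O Y (fun z => ENNReal.ofReal (h z)) hO hY hO.measurableSet
    Subset.rfl hh.ennreal_ofReal
  obtain ⟨m2, e2, -⟩ := hare n O O Y (fun z => ENNReal.ofReal (-h z)) hO hY hO.measurableSet
    Subset.rfl hh.neg.ennreal_ofReal
  change Measurable (Us O Y (fun z => ENNReal.ofReal (h z))) at m1
  change Measurable (Us O Y (fun z => ENNReal.ofReal (-h z))) at m2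
  change _ = ∫⁻ y, Us O Y (fun z => ENNReal.ofReal (h z)) y at e1
  change _ = ∫⁻ y, Us O Y (fun z => ENNReal.ofReal (-h z)) y at e2
  have r1 : ∫⁻ y, Us O Y (fun z => ENNReal.ofReal (h z)) y =
      ∫⁻ y in Metric.ball (0 : V n) δ, Us O Y (fun z => ENNReal.ofReal (h z)) y := by
    rw [← lintegral_indicator Metric.isOpen_ball.measurableSet]
    refine lintegral_congr fun y => ?_
    by_cases hy : y ∈ Metric.ball (0 : V n) δ
    · rw [indicator_of_mem hy]
    · rw [indicator_of_notMem hy]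
      refine Us_zero fun z hz hzy => ?_
      rw [hsupp z hz (by rwa [hzy]), ENNReal.ofReal_zero]
  have r2 : ∫⁻ y, Us O Y (fun z => ENNReal.ofReal (-h z)) y =
      ∫⁻ y in Metric.ball (0 : V n) δ, Us O Y (fun z => ENNReal.ofReal (-h z)) y := by
    rw [← lintegral_indicator Metric.isOpen_ball.measurableSet]
    refine lintegral_congr fun y => ?_
    by_cases hy : y ∈ Metric.ball (0 : V n) δ
    · rw [indicator_of_mem hy]
    · rw [indicator_of_notMem hy]
      refine Us_zero fun z hz hzy => ?_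
      rw [hsupp z hz (by rwa [hzy]), neg_zero, ENNReal.ofReal_zero]
  have q1 : ∀ z, ENNReal.ofReal (h z * ‖(jac Y z).det‖ ^ 2) =
      ENNReal.ofReal (h z) * ENNReal.ofReal (‖(jac Y z).det‖ ^ 2) := fun z =>
    ENNReal.ofReal_mul' (by positivity)
  have q2 : ∀ z, ENNReal.ofReal (-(h z * ‖(jac Y z).det‖ ^ 2)) =
      ENNReal.ofReal (-h z) * ENNReal.ofReal (‖(jac Y z).det‖ ^ 2) := fun z => by
    rw [← neg_mul]
    exact ENNReal.ofReal_mul' (by positivity)
  have f1 : ∫⁻ z in O, ENNReal.ofReal (h z) * ENNReal.ofReal (‖(jac Y z).det‖ ^ 2) < ⊤ := by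
    refine lt_of_le_of_lt (lintegral_mono fun z => ?_) hint.2
    rw [← q1, ← ofReal_norm]
    exact ENNReal.ofReal_le_ofReal (le_abs_self _)
  have f2 : ∫⁻ z in O, ENNReal.ofReal (-h z) * ENNReal.ofReal (‖(jac Y z).det‖ ^ 2) < ⊤ := by
    refine lt_of_le_of_lt (lintegral_mono fun z => ?_) hint.2
    rw [← q2, ← ofReal_norm]
    exact ENNReal.ofReal_le_ofReal (neg_le_abs _)
  have g1 : ∫⁻ y in Metric.ball (0 : V n) δ, Us O Y (fun z => ENNReal.ofReal (h z)) y ≠ ⊤ := by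
    rw [← r1, ← e1]
    exact f1.ne
  have g2 : ∫⁻ y in Metric.ball (0 : V n) δ, Us O Y (fun z => ENNReal.ofReal (-h z)) y ≠ ⊤ := by
    rw [← r2, ← e2]
    exact f2.ne
  have i1 := integrable_toReal_of_lintegral_ne_top m1.aemeasurable g1
  have i2 := integrable_toReal_of_lintegral_ne_top m2.aemeasurable g2
  have heq : fs O Y h =ᵐ[volume.restrict (Metric.ball (0 : V n) δ)]
      fun w => (Us O Y (fun z => ENNReal.ofReal (h z)) w).toReal -
        (Us O Y (fun z => ENNReal.ofReal (-h z)) w).toReal := by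
    filter_upwards [hG] with w hw
    exact fs_eq hw.1 hw.2 h
  refine ⟨(i1.sub i2).congr heq.symm, ?_⟩
  rw [integral_congr_ae heq, integral_sub i1 i2,
    integral_toReal m1.aemeasurable (ae_lt_top m1 g1),
    integral_toReal m2.aemeasurable (ae_lt_top m2 g2),
    integral_eq_lintegral_pos_part_sub_lintegral_neg_part hint]
  simp only [q1, q2]
  rw [e1, e2, r1, r2]

end Pool.Agent.H81.VG.LSB
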