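import Mathlib
import Pool.Agent.H95.VG.Targets1
import Pool.Agent.H95.VG.Targets5
import Pool.Agent.H73.VG.PRD
import Pool.Agent.H27.VG.Base2
import Pool.Agent.H81.VG.LSBA
import Pool.Agent.H81.VG.LCE
import Pool.Agent.H81.VG.FCC

/-!
# VG module LSB: sums over the fibres are subharmonic
-/

open MeasureTheory Set Filter Topology
open scoped ENNReal NNReal ContDiff ComplexConjugate

namespace Pool.Agent.H81.VG.LSB

open Pool.Agent.H95.VG

variable {n : ℕ}

theorem append_mem_closedBall {z y z₀ y₀ : V n} {r : ℝ}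
    (h : Fin.append z y ∈ Metric.closedBall (Fin.append z₀ y₀) r) :
    z ∈ Metric.closedBall z₀ r ∧ y ∈ Metric.closedBall y₀ r := by
  have hr : 0 ≤ r := dist_nonneg.trans (Metric.mem_closedBall.1 h)
  rw [Metric.mem_closedBall, dist_pi_le_iff hr] at h
  constructor
  · rw [Metric.mem_closedBall, dist_pi_le_iff hr]
    intro i
    have := h (Fin.castAdd n i)
    rwa [Fin.append_left, Fin.append_left] at this
  · rw [Metric.mem_closedBall, dist_pi_le_iff hr]
    intro i
    have := h (Fin.natAdd n i)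
    rwa [Fin.append_right, Fin.append_right] at this

/-- integrability by domination -/
theorem int3 {O S : Set (V n)} (hO : IsOpen O) (hS : MeasurableSet (O ∩ S)) {D : V n → ℝ}
    (hD : ∫⁻ z in O ∩ S, ENNReal.ofReal (D z) < ⊤) {c α β : V n → ℂ}
    (hc : ContinuousOn c O) (hα : ContinuousOn α O) (hβ : ContinuousOn β O) {M C : ℝ}
    (hM : ∀ z ∈ O, ‖c z‖ ≤ M) (hsupp : ∀ z ∈ O, c z ≠ 0 → z ∈ S) (hC : 0 ≤ C)
    (hα2 : ∀ z ∈ O ∩ S, ‖α z‖ ^ 2 ≤ C * D z) (hβ2 : ∀ z ∈ O ∩ S, ‖β z‖ ^ 2 ≤ C * D z) :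
    IntegrableOn (fun z => c z * α z * β z) O := by
  refine ⟨((hc.mul hα).mul hβ).aestronglyMeasurable hO.measurableSet, ?_⟩
  rcases O.eq_empty_or_nonempty with hne | ⟨z₁, hz₁⟩
  · rw [hne]
    simp [HasFiniteIntegral]
  have hM0 : 0 ≤ M := (norm_nonneg _).trans (hM z₁ hz₁)
  have h1 : ∫⁻ z in O, ‖c z * α z * β z‖ₑ ≤
      ∫⁻ z in O, (O ∩ S).indicator (fun z => ENNReal.ofReal (M * C) * ENNReal.ofReal (D z)) z := by
    refine setLIntegral_mono_ae' hO.measurableSet (Eventually.of_forall fun z hz => ?_)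
    by_cases hzS : z ∈ O ∩ S
    · rw [indicator_of_mem hzS, ← ENNReal.ofReal_mul (by positivity), ← ofReal_norm]
      refine ENNReal.ofReal_le_ofReal ?_
      rw [norm_mul, norm_mul]
      have h2 := hα2 z hzS
      have h3 := hβ2 z hzS
      have h4 := hM z hz
      have h5 : ‖α z‖ * ‖β z‖ ≤ C * D z := by nlinarith [sq_nonneg (‖α z‖ - ‖β z‖)]
      have h6 : 0 ≤ ‖α z‖ * ‖β z‖ := by positivity
      calc ‖c z‖ * ‖α z‖ * ‖β z‖ = ‖c z‖ * (‖α z‖ * ‖β z‖) := by ring
        _ ≤ M * (C * D z) := mul_le_mul h4 h5 h6 hM0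
        _ = M * C * D z := by ring
    · rw [indicator_of_notMem hzS]
      have : c z = 0 := by
        by_contra h
        exact hzS ⟨hz, hsupp z hz h⟩
      rw [this, zero_mul, zero_mul, enorm_zero]
  refine lt_of_le_of_lt h1 ?_
  rw [lintegral_indicator hS, Measure.restrict_restrict hS,
    lintegral_const_mul' _ _ ENNReal.ofReal_ne_top]
  refine ENNReal.mul_lt_top ENNReal.ofReal_lt_top (lt_of_le_of_lt (lintegral_mono_set ?_) hD)
  exact inter_subset_left

/-- the support of functions of the projection -/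
theorem exists_r2 {X : Type} [TopologicalSpace X] {ι : Type} {A : Atl n X ι} {f : V n → X}
    {I D : Set (V n)} {a : ι} {P : V (n + n)} {r : ℝ} {m : ℕ} {G : V (n + n) → V m}
    {l : V (n + n) → V n} (hL : LGr A f I D a P r G l) {r' ε₀ δ₁ : ℝ} {D₀ : ℕ}
    (hF : FBd A f I D a P r G l r' ε₀ δ₁ D₀) (Φ : Fin n → Fin n ⊕ Fin n) {ε : ℝ}
    (he0 : 0 ≤ ε) (he1 : ε ≤ ε₀) {Kp : Set (V n)} (hKp : IsCompact Kp)
    (hKpb : Kp ⊆ Metric.ball (0 : V n) δ₁) :
    ∃ r'' : ℝ, r'' < r' ∧ ∀ z ∈ Ug A f I D a P r', YY l P Φ ε (Zf (FF A f a) z) ∈ Kp →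
      Zf (FF A f a) z ∈ Metric.closedBall P r'' := by
  obtain ⟨hr'0, hr'r, -, -, hδ₁⟩ := hF.pos
  have hcb : Metric.closedBall P r' ⊆ Metric.ball P r := Metric.closedBall_subset_ball hr'r
  have hGc : ContinuousOn G (Metric.closedBall P r') := hL.ghol.continuousOn.mono hcb
  have hlc : ContinuousOn l (Metric.closedBall P r') := hL.lhol.continuousOn.mono hcb
  have hYc : ContinuousOn (YY l P Φ ε) (Metric.closedBall P r') := by
    unfold YY
    refine continuousOn_pi.2 fun i => ?_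
    refine ((continuous_apply i).comp_continuousOn hlc).add (Continuous.continuousOn ?_)
    fun_prop
  set C : Set (V (n + n)) := (Metric.closedBall P r' ∩ G ⁻¹' {0}) ∩
    (Metric.closedBall P r' ∩ YY l P Φ ε ⁻¹' Kp) with hC
  have hCc : IsCompact C := by
    have h1 : IsClosed (Metric.closedBall P r' ∩ G ⁻¹' {0}) :=
      hGc.preimage_isClosed_of_isClosed Metric.isClosed_closedBall isClosed_singleton
    have h2 : IsClosed (Metric.closedBall P r' ∩ YY l P Φ ε ⁻¹' Kp) :=
      hYc.preimage_isClosed_of_isClosed Metric.isClosed_closedBall hKp.isClosed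
    exact (isCompact_closedBall P r').of_isClosed_subset (h1.inter h2)
      (inter_subset_left.trans inter_subset_left)
  have hmem : ∀ z ∈ Ug A f I D a P r', YY l P Φ ε (Zf (FF A f a) z) ∈ Kp →
      Zf (FF A f a) z ∈ C := by
    rintro z ⟨hz1, hz2, hz3⟩ hz4
    have hz5 := Metric.ball_subset_closedBall hz3
    refine ⟨⟨hz5, ?_⟩, hz5, hz4⟩
    exact (hL.gr z (FF A f a z) (hcb hz5) hz1.2).2 ⟨hz2, rfl⟩
  rcases C.eq_empty_or_nonempty with hne | hne
  · refine ⟨r' / 2, by linarith, fun z hz hz4 => ?_⟩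
    have := hmem z hz hz4
    rw [hne] at this
    exact absurd this (Set.notMem_empty _)
  · obtain ⟨Z, hZ, hmax⟩ := hCc.exists_isMaxOn hne (f := fun Z => dist Z P)
      (continuous_id.dist continuous_const).continuousOn
    refine ⟨dist Z P, ?_, fun z hz hz4 => ?_⟩
    · have h1 : dist Z P ≤ r' := hZ.1.1
      rcases h1.lt_or_eq with h2 | h2
      · exact h2
      · exfalso
        have h3 := hF.prp Φ ε he0 he1 Z (by rw [Metric.mem_sphere]; exact h2) hZ.1.2
        have h4 := hKpb hZ.2.2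
        rw [mem_ball_zero_iff] at h4
        linarith
    · exact hmax (hmem z hz hz4)

theorem dzcont {g : V n → ℂ} (hg : ContDiff ℝ 1 g) (v : V n) :
    Continuous (fun y => dz g y v) ∧ Continuous (fun y => dzb g y v) := by
  have h1 : Continuous (fun x => fderiv ℝ g x v) :=
    (hg.continuous_fderiv (by norm_num)).clm_apply continuous_const
  have h2 : Continuous (fun x => fderiv ℝ g x (Complex.I • v)) :=
    (hg.continuous_fderiv (by norm_num)).clm_apply continuous_const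
  unfold dz dzb
  constructor <;> fun_prop

theorem dzsmooth {g : V n → ℂ} (hg : ContDiff ℝ ∞ g) (v : V n) :
    ContDiff ℝ ∞ (fun y => dz g y v) ∧ ContDiff ℝ ∞ (fun y => dzb g y v) := by
  have h0 : ContDiff ℝ ∞ (fderiv ℝ g) := hg.fderiv_right (m := ∞) (by simp)
  have h1 : ContDiff ℝ ∞ (fun x => fderiv ℝ g x v) := h0.clm_apply contDiff_const
  have h2 : ContDiff ℝ ∞ (fun x => fderiv ℝ g x (Complex.I • v)) := h0.clm_apply contDiff_const
  unfold dz dzb
  exact ⟨(h1.sub (contDiff_const.mul h2)).div_const 2, (h1.add (contDiff_const.mul h2)).div_const 2⟩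

theorem dz_off {g : V n → ℂ} {y : V n} (hy : y ∉ tsupport g) (v : V n) :
    dz g y v = 0 ∧ dzb g y v = 0 := by
  have h1 : fderiv ℝ g y = 0 := by
    have h2 : g =ᶠ[𝓝 y] fun _ => 0 := by
      filter_upwards [(isClosed_tsupport g).isOpen_compl.mem_nhds hy] with x hx
      exact image_eq_zero_of_notMem_tsupport hx
    rw [h2.fderiv_eq]
    simp
  unfold dz dzb
  rw [h1]
  simp

theorem tsupport_dz {g : V n → ℂ} (v : V n) : tsupport (fun y => dz g y v) ⊆ tsupport g := by
  refine closure_minimal ?_ (isClosed_tsupport g)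
  intro y hy
  by_contra h
  exact hy (dz_off h v).1

theorem main_id (hsmo : T_SMO) (hlin : T_LIN) (hchr : T_CHR) (hpio : T_PIO) (hmop : T_MOP)
    (hjac : T_JAC) (hymx : T_YMX) (hs1m : T_S1M) (hyfo : T_YFO) {X : Type} [TopologicalSpace X]
    [T2Space X] {ι : Type} [Finite ι] {A : Atl n X ι} {f : V n → X} {I D : Set (V n)} (hn : 1 ≤ n)
    (hM : Mro A f I D) {a : ι} {z₀ y₀ : V n} {r : ℝ} {m : ℕ} {G : V (n + n) → V m}
    {l : V (n + n) → V n} (hy₀ : y₀ ∈ Metric.closedBall (0 : V n) 2)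
    (hL : LGr A f I D a (Fin.append z₀ y₀) r G l) {r' ε₀ δ₁ : ℝ} {D₀ : ℕ}
    (hF : FBd A f I D a (Fin.append z₀ y₀) r G l r' ε₀ δ₁ D₀) (Φ : Fin n → Fin n ⊕ Fin n) {ε : ℝ}
    (he0 : 0 ≤ ε) (he1 : ε ≤ ε₀) (he2 : ε ≤ 1) {g p : V n → ℝ} (hg : ContDiff ℝ ∞ g)
    (hpsh : ∀ z v, 0 ≤ lev g z v) (hp : ContDiff ℝ ∞ p) (hpc : HasCompactSupport p)
    (hpt : tsupport p ⊆ Metric.ball (0 : V n) δ₁) (hp0 : ∀ y, 0 ≤ p y) (k : Fin n) :
    IntegrableOn (fun z => g z * lev p (YY l (Fin.append z₀ y₀) Φ ε (Zf (FF A f a) z)) (ek k) *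
      ‖(jac (fun x => YY l (Fin.append z₀ y₀) Φ ε (Zf (FF A f a) x)) z).det‖ ^ 2)
      (Ug A f I D a (Fin.append z₀ y₀) r') ∧
    0 ≤ ∫ z in Ug A f I D a (Fin.append z₀ y₀) r',
      g z * lev p (YY l (Fin.append z₀ y₀) Φ ε (Zf (FF A f a) z)) (ek k) *
      ‖(jac (fun x => YY l (Fin.append z₀ y₀) Φ ε (Zf (FF A f a) x)) z).det‖ ^ 2 := by
  obtain ⟨hr'0, hr'r, -, -, hδ₁⟩ := hF.pos
  obtain ⟨r'', hr'', hsup⟩ := exists_r2 hL hF Φ he0 he1 hpc hpt
  set P : V (n + n) := Fin.append z₀ y₀ with hP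
  set F : V n → V n := FF A f a with hFdef
  set O := Ug A f I D a P r' with hOdef
  have hO : IsOpen O := (hmop n X ι A f I D hM).2.2.1 a P r'
  have hFd : DifferentiableOn ℂ F O := (hM.hol a).mono (fun z hz => ⟨hz.1, hz.2.1⟩)
  have hFat : ∀ z ∈ O, DifferentiableAt ℂ F z := fun z hz => hFd.differentiableAt (hO.mem_nhds hz)
  have hZr : ∀ z ∈ O, Zf F z ∈ Metric.ball P r := fun z hz =>
    Metric.ball_subset_ball hr'r.le hz.2.2
  set Y : V n → V n := fun x => YY l P Φ ε (Zf F x) with hYdef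
  have hYd : DifferentiableOn ℂ Y O := fun z hz =>
    ((hjac n F z P r l (hFat z hz) hL.lhol (hZr z hz) Φ ε).1).differentiableWithinAt
  have hYs : ContDiffOn ℝ ∞ Y O := (hsmo n (V n) O Y hO hYd).2.1
  have hYs1 : ContDiffOn ℝ 1 Y O := hYs.of_le (WithTop.coe_le_coe.2 le_top)
  have hYc : ContinuousOn Y O := hYd.continuousOn
  have hYat : ∀ z ∈ O, DifferentiableAt ℝ Y z := fun z hz =>
    (hYs1.contDiffAt (hO.mem_nhds hz)).differentiableAt (by norm_num)
  set det : V n → ℂ := fun z => (jac Y z).det with hdet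
  set W : V n → V n := cf Y k with hW
  have hdetd : DifferentiableOn ℂ det O := Pool.Agent.H27.VG.det_hol hsmo O Y hO hYd
  have hWd : DifferentiableOn ℂ W O := (hpio n O Y hO hYd k).1
  have hWid : ∀ i, DifferentiableOn ℂ (fun z => W z i) O := fun i => differentiableOn_pi.1 hWd i
  -- complexified functions
  set gc : V n → ℂ := fun z => (g z : ℂ) with hgc
  set pc : V n → ℂ := fun y => (p y : ℂ) with hpcdef
  have hgcs : ContDiff ℝ ∞ gc := Complex.ofRealCLM.contDiff.comp hg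
  have hpcs : ContDiff ℝ ∞ pc := Complex.ofRealCLM.contDiff.comp hp
  have htp : tsupport pc = tsupport p := by
    unfold tsupport
    congr 1
    ext y
    simp [hpcdef]
  set q : V n → ℂ := fun y => dz pc y (ek k) with hq
  set q' : V n → ℂ := fun y => dzb pc y (ek k) with hq'
  set b1 : V n → ℂ := fun y => dzb q y (ek k) with hb1
  have hqs : ContDiff ℝ ∞ q := (dzsmooth hpcs (ek k)).1
  have hq's : ContDiff ℝ ∞ q' := (dzsmooth hpcs (ek k)).2
  have hb1s : ContDiff ℝ ∞ b1 := (dzsmooth hqs (ek k)).2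
  have hq0 : ∀ y, y ∉ tsupport p → q y = 0 := fun y hy => (dz_off (by rwa [htp]) _).1
  have hq'0 : ∀ y, y ∉ tsupport p → q' y = 0 := fun y hy => (dz_off (by rwa [htp]) _).2
  have hb10 : ∀ y, y ∉ tsupport p → b1 y = 0 := fun y hy =>
    (dz_off (fun h => hy (by rw [← htp]; exact tsupport_dz (ek k) h)) _).2
  have hpc0 : ∀ y, y ∉ tsupport p → pc y = 0 := fun y hy => by
    simp only [hpcdef]
    rw [image_eq_zero_of_notMem_tsupport hy]
    simp
  -- the truncation set
  set S : Set (V n) := {z | Zf F z ∈ Metric.closedBall P r''} with hS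
  have hZc : ContinuousOn (Zf F) O := Pool.Agent.H78.VG.continuousOn_Zf hFd.continuousOn
  have hSm : MeasurableSet (O ∩ S) := by
    have h1 : IsOpen (O ∩ Zf F ⁻¹' (Metric.closedBall P r'')ᶜ) :=
      hZc.isOpen_inter_preimage hO Metric.isClosed_closedBall.isOpen_compl
    have h2 : O ∩ S = O \ (O ∩ Zf F ⁻¹' (Metric.closedBall P r'')ᶜ) := by
      ext z
      constructor
      · rintro ⟨h3, h4⟩
        exact ⟨h3, fun h5 => h5.2 h4⟩
      · rintro ⟨h3, h4⟩
        refine ⟨h3, ?_⟩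
        by_contra h5
        exact h4 ⟨h3, h5⟩
    rw [h2]
    exact hO.measurableSet.diff h1.measurableSet
  have hr14 := hL.rle
  have hKD : Metric.closedBall z₀ r'' ⊆ D := by
    intro z hz
    refine (hL.dom z y₀ ((append_mem_ball hL.rpos).2 ⟨?_, Metric.mem_ball_self hL.rpos⟩)).1
    exact Metric.closedBall_subset_ball (hr''.trans hr'r) hz
  have hSK : O ∩ S ⊆ (Metric.closedBall z₀ r'' \ I) ∩ Cb A f a (5 / 2) := by
    rintro z ⟨⟨hz1, hz2, hz3⟩, hz4⟩
    obtain ⟨h1, h2⟩ := append_mem_closedBall hz4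
    refine ⟨⟨h1, hz1.2⟩, hz2, ?_⟩
    rw [mem_closedBall_iff_norm] at h2
    rw [mem_closedBall_zero_iff] at hy₀ ⊢
    have := norm_add_le (F z - y₀) y₀
    simp only [sub_add_cancel] at this
    have h3 : A.φ a (f z) = F z := rfl
    rw [h3]
    linarith
  have hDm : ∫⁻ z in O ∩ S, ENNReal.ofReal (Dm F z) < ⊤ :=
    lt_of_le_of_lt (lintegral_mono_set hSK)
      (hs1m n X ι A f I D hn hM _ hKD (isCompact_closedBall _ _) a)
  obtain ⟨C, hC0, hC⟩ := hymx n P r r'' l hL.lhol (hr''.trans hr'r)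
  have gd : ∀ z ∈ O ∩ S, ‖det z‖ ^ 2 ≤ C * Dm F z := fun z hz =>
    (hC F z (hFat z hz.1) hz.2 Φ ε he0 he2 k).1
  have gW : ∀ i, ∀ z ∈ O ∩ S, ‖W z i‖ ^ 2 ≤ C * Dm F z := fun i z hz =>
    (hC F z (hFat z hz.1) hz.2 Φ ε he0 he2 k).2.1 i
  have gdc : ∀ z ∈ O ∩ S, ‖conj (det z)‖ ^ 2 ≤ C * Dm F z := fun z hz => by
    rw [RCLike.norm_conj]; exact gd z hz
  have gWc : ∀ i, ∀ z ∈ O ∩ S, ‖conj (W z i)‖ ^ 2 ≤ C * Dm F z := fun i z hz => by
    rw [RCLike.norm_conj]; exact gW i z hz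
  have cd : ContinuousOn det O := hdetd.continuousOn
  have cW : ∀ i, ContinuousOn (fun z => W z i) O := fun i => (hWid i).continuousOn
  have cdc : ContinuousOn (fun z => conj (det z)) O := Complex.continuous_conj.comp_continuousOn cd
  have cWc : ∀ i, ContinuousOn (fun z => conj (W z i)) O := fun i =>
    Complex.continuous_conj.comp_continuousOn (cW i)
  have hbd : ∀ a0 b0 : V n → ℂ, Continuous a0 → Continuous b0 →
      (∀ y, y ∉ tsupport p → b0 y = 0) → ∃ M : ℝ, ∀ z ∈ O, ‖a0 z * b0 (Y z)‖ ≤ M := by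
    intro a0 b0 ha hb hb0
    obtain ⟨M1, hM1⟩ := (isCompact_closedBall z₀ r'').exists_bound_of_continuousOn ha.continuousOn
    obtain ⟨M2, hM2⟩ := (hpc : IsCompact (tsupport p)).exists_bound_of_continuousOn hb.continuousOn
    refine ⟨max M1 0 * max M2 0, fun z hz => ?_⟩
    by_cases hyp : Y z ∈ tsupport p
    · rw [norm_mul]
      have h1 := (append_mem_closedBall (hsup z hz hyp)).1
      exact mul_le_mul ((hM1 z h1).trans (le_max_left _ _)) ((hM2 _ hyp).trans (le_max_left _ _))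
        (norm_nonneg _) (le_max_right _ _)
    · rw [hb0 _ hyp, mul_zero, norm_zero]
      positivity
  have int4 : ∀ a0 b0 α β : V n → ℂ, Continuous a0 → Continuous b0 →
      (∀ y, y ∉ tsupport p → b0 y = 0) → ContinuousOn α O → ContinuousOn β O →
      (∀ z ∈ O ∩ S, ‖α z‖ ^ 2 ≤ C * Dm F z) → (∀ z ∈ O ∩ S, ‖β z‖ ^ 2 ≤ C * Dm F z) →
      IntegrableOn (fun z => a0 z * b0 (Y z) * α z * β z) O := by
    intro a0 b0 α β ha hb hb0 hα hβ hα2 hβ2
    obtain ⟨M, hM⟩ := hbd a0 b0 ha hb hb0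
    refine int3 hO hSm hDm (ha.continuousOn.mul (hb.comp_continuousOn hYc)) hα hβ hM ?_ hC0 hα2 hβ2
    intro z hz hne
    refine hsup z hz ?_
    by_contra h
    exact hne (by rw [hb0 _ h, mul_zero])
  -- integrable pieces
  have hg1 : ∀ v, Continuous (fun z => dz gc z v) := fun v => (dzsmooth hgcs v).1.continuous
  have hg2 : ∀ v, Continuous (fun z => dzb gc z v) := fun v => (dzsmooth hgcs v).2.continuous
  have hg3 : ∀ i j, Continuous (fun z => dzb (fun x => dz gc x (ek i)) z (ek j)) := fun i j =>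
    (dzsmooth (dzsmooth hgcs (ek i)).1 (ek j)).2.continuous
  set A1 : V n → ℂ := fun z => gc z * b1 (Y z) * det z * conj (det z) with hA1
  have iA1 : IntegrableOn A1 O := int4 gc b1 det (fun z => conj (det z)) hgcs.continuous
    hb1s.continuous hb10 cd cdc gd gdc
  set A2 : V n → ℂ := fun z => ∑ j, dzb gc z (ek j) * q (Y z) * conj (W z j) * det z with hA2
  have iA2 : IntegrableOn A2 O := by
    refine integrable_finsetSum _ fun j _ => ?_
    exact int4 (fun z => dzb gc z (ek j)) q (fun z => conj (W z j)) det (hg2 _) hqs.continuous hq0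
      (cWc j) cd (gWc j) gd
  set B : Fin n → V n → ℂ := fun i z =>
    ∑ j, dzb (fun x => dz gc x (ek i)) z (ek j) * pc (Y z) * W z i * conj (W z j) with hB
  have iB : ∀ i, IntegrableOn (B i) O := by
    intro i
    refine integrable_finsetSum _ fun j _ => ?_
    exact int4 _ pc (fun z => W z i) (fun z => conj (W z j)) (hg3 i j) hpcs.continuous hpc0
      (cW i) (cWc j) (gW i) (gWc j)
  set E : Fin n → V n → ℂ := fun i z => dz gc z (ek i) * q' (Y z) * W z i * conj (det z) with hE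
  have iE : ∀ i, IntegrableOn (E i) O := by
    intro i
    exact int4 (fun z => dz gc z (ek i)) q' (fun z => W z i) (fun z => conj (det z)) (hg1 _)
      hq's.continuous hq'0 (cW i) cdc (gW i) gdc
  -- finiteness of the square integrals
  have hsq : ∀ α : V n → ℂ, (∀ z ∈ O ∩ S, ‖α z‖ ^ 2 ≤ C * Dm F z) →
      ∫⁻ z in O ∩ S, ENNReal.ofReal (‖α z‖ ^ 2) < ⊤ := by
    intro α hα
    have h1 : ∫⁻ z in O ∩ S, ENNReal.ofReal (‖α z‖ ^ 2) ≤
        ∫⁻ z in O ∩ S, ENNReal.ofReal C * ENNReal.ofReal (Dm F z) := by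
      refine setLIntegral_mono' hSm fun z hz => ?_
      rw [← ENNReal.ofReal_mul hC0]
      exact ENNReal.ofReal_le_ofReal (hα z hz)
    refine lt_of_le_of_lt h1 ?_
    rw [lintegral_const_mul' _ _ ENNReal.ofReal_ne_top]
    exact ENNReal.mul_lt_top ENNReal.ofReal_lt_top hDm
  -- first identity
  have hgat : ∀ z, DifferentiableAt ℝ gc z := fun z => hgcs.differentiable (by simp) z
  have id1 : ∀ z ∈ O, det z * dzb (fun x => gc x * q (Y x)) z (W z) = A1 z + A2 z := by
    intro z hz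
    have h1 := ((Pool.Agent.H73.VG.prd n z (W z)).1 gc (fun x => q (Y x)) (hgat z)
      ((hqs.differentiable (by simp) (Y z)).comp z (hYat z hz))).2
    have h2 := ((hchr n O Y hO hYd z hz k).2.1 q (hqs.differentiable (by simp) (Y z))).2
    rw [h1]
    have h3 : dzb (fun x => q (Y x)) z (W z) = conj (det z) * b1 (Y z) := h2
    rw [h3]
    have h4 : dzb gc z (W z) = ∑ i, conj (W z i) * dzb gc z (ek i) :=
      ((hlin n z).1 gc (W z) (W z) 0).2.2.2.2.2.1
    rw [h4]
    simp only [hA1, hA2]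
    rw [mul_add, Finset.mul_sum, Finset.mul_sum]
    congr 1
    · ring
    · refine Finset.sum_congr rfl fun j _ => ?_
      ring
  have y1 := hyfo n X ι A f I D hn hM a z₀ y₀ r m G l hy₀ hL r' r'' ε Φ k
    (fun x => gc x * q (Y x)) det hr'r hr'' he0 he2
    ((hgcs.of_le (WithTop.coe_le_coe.2 le_top)).contDiffOn.mul
      ((hqs.of_le (WithTop.coe_le_coe.2 le_top)).comp_contDiffOn hYs1))
    (fun z hz hne => hsup z hz (by
      by_contra h
      exact hne (by rw [hq0 _ h, mul_zero])))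
    (hbd gc q hgcs.continuous hqs.continuous hq0) hdetd (hsq det gd)
    ((iA1.add iA2).congr_fun (fun z hz => (id1 z hz).symm) hO.measurableSet)
  have y1' : ∫ z in O, (A1 z + A2 z) = 0 := by
    rw [← y1]
    exact setIntegral_congr_fun hO.measurableSet (fun z hz => (id1 z hz).symm)
  rw [integral_add iA1 iA2] at y1'
  -- second identity
  have hpcat : ∀ y, DifferentiableAt ℝ pc y := fun y => hpcs.differentiable (by simp) y
  have id2 : ∀ i, ∀ z ∈ O, W z i * dzb (fun x => dz gc x (ek i) * pc (Y x)) z (W z) =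
      B i z + E i z := by
    intro i z hz
    have h0 : DifferentiableAt ℝ (fun x => dz gc x (ek i)) z :=
      (dzsmooth hgcs (ek i)).1.differentiable (by simp) z
    have h1 := ((Pool.Agent.H73.VG.prd n z (W z)).1 (fun x => dz gc x (ek i)) (fun x => pc (Y x)) h0
      ((hpcat (Y z)).comp z (hYat z hz))).2
    have h2 := ((hchr n O Y hO hYd z hz k).2.1 pc (hpcat (Y z))).2
    rw [h1]
    have h3 : dzb (fun x => pc (Y x)) z (W z) = conj (det z) * q' (Y z) := h2
    rw [h3]
    have h4 : dzb (fun x => dz gc x (ek i)) z (W z) =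
        ∑ j, conj (W z j) * dzb (fun x => dz gc x (ek i)) z (ek j) :=
      ((hlin n z).1 (fun x => dz gc x (ek i)) (W z) (W z) 0).2.2.2.2.2.1
    rw [h4]
    simp only [hB, hE]
    rw [mul_add, Finset.mul_sum, Finset.mul_sum, add_comm]
    congr 1
    · refine Finset.sum_congr rfl fun j _ => ?_
      ring
    · ring
  have y2 : ∀ i, ∫ z in O, (B i z + E i z) = 0 := by
    intro i
    have h1 := hyfo n X ι A f I D hn hM a z₀ y₀ r m G l hy₀ hL r' r'' ε Φ k
      (fun x => dz gc x (ek i) * pc (Y x)) (fun z => W z i) hr'r hr'' he0 he2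
      ((((dzsmooth hgcs (ek i)).1).of_le (WithTop.coe_le_coe.2 le_top)).contDiffOn.mul
        ((hpcs.of_le (WithTop.coe_le_coe.2 le_top)).comp_contDiffOn hYs1))
      (fun z hz hne => hsup z hz (by
        by_contra h
        exact hne (by rw [hpc0 _ h, mul_zero])))
      (hbd _ pc (hg1 _) hpcs.continuous hpc0) (hWid i) (hsq _ (gW i))
      (((iB i).add (iE i)).congr_fun (fun z hz => (id2 i z hz).symm) hO.measurableSet)
    rw [← h1]
    exact setIntegral_congr_fun hO.measurableSet (fun z hz => (id2 i z hz).symm)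
  -- sum over i
  have y3 : (∫ z in O, ∑ i, B i z) + ∫ z in O, ∑ i, E i z = 0 := by
    rw [integral_finsetSum _ fun i _ => iB i, integral_finsetSum _ fun i _ => iE i,
      ← Finset.sum_add_distrib]
    refine Finset.sum_eq_zero fun i _ => ?_
    rw [← integral_add (iB i) (iE i)]
    exact y2 i
  -- pointwise forms
  have hgdr : ∀ z v, dz gc z v = dr g z v ∧ dzb gc z v = conj (dr g z v) := fun z v =>
    (hlin n z).2.2.2.1 g v (hg.differentiable (by simp) z)
  have hpdr : ∀ z v, dz pc z v = dr p z v ∧ dzb pc z v = conj (dr p z v) := fun z v =>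
    (hlin n z).2.2.2.1 p v (hp.differentiable (by simp) z)
  have hEA : ∀ z, ∑ i, E i z = conj (A2 z) := by
    intro z
    simp only [hE, hA2, hq, hq']
    rw [map_sum]
    refine Finset.sum_congr rfl fun i _ => ?_
    simp only [map_mul, (hgdr z _).1, (hgdr z _).2, (hpdr _ _).1, (hpdr _ _).2, Complex.conj_conj]
  have hpc2 : ∀ y, ContDiffAt ℝ 2 pc y := fun y =>
    (hpcs.of_le (WithTop.coe_le_coe.2 le_top)).contDiffAt
  have hp2 : ∀ y, ContDiffAt ℝ 2 p y := fun y =>
    (hp.of_le (WithTop.coe_le_coe.2 le_top)).contDiffAt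
  have hgc2 : ∀ y, ContDiffAt ℝ 2 gc y := fun y =>
    (hgcs.of_le (WithTop.coe_le_coe.2 le_top)).contDiffAt
  have hg2' : ∀ y, ContDiffAt ℝ 2 g y := fun y =>
    (hg.of_le (WithTop.coe_le_coe.2 le_top)).contDiffAt
  have hb1r : ∀ y, b1 y = ((lev p y (ek k) : ℝ) : ℂ) := by
    intro y
    rw [Pool.Agent.H73.VG.lev_cast p y (ek k) (hp2 y)]
    exact (Pool.Agent.H73.VG.lev_dzb_dz pc y (ek k) (hpc2 y)).symm
  have hA1r : ∀ z, A1 z = ((g z * lev p (Y z) (ek k) * ‖det z‖ ^ 2 : ℝ) : ℂ) := by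
    intro z
    simp only [hA1, hgc]
    rw [hb1r, mul_assoc ((g z : ℂ) * _), Complex.mul_conj']
    push_cast
    ring
  have hBr : ∀ z, ∑ i, B i z = ((p (Y z) * lev g z (W z) : ℝ) : ℂ) := by
    intro z
    rw [Complex.ofReal_mul, Pool.Agent.H73.VG.lev_cast g z (W z) (hg2' z),
      Pool.Agent.H73.VG.lev_coord _ z (W z) (hgc2 z), Finset.mul_sum]
    refine Finset.sum_congr rfl fun i _ => ?_
    rw [Finset.mul_sum]
    simp only [hB]
    refine Finset.sum_congr rfl fun j _ => ?_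
    simp only [hpcdef]
    ring
  have iR : IntegrableOn (fun z => g z * lev p (Y z) (ek k) * ‖det z‖ ^ 2) O := by
    have h1 : IntegrableOn (fun z => (A1 z).re) O := iA1.re
    refine h1.congr_fun (fun z _ => ?_) hO.measurableSet
    simp only [hA1r, Complex.ofReal_re]
  refine ⟨iR, ?_⟩
  simp only [hEA, hBr, integral_conj] at y3
  have h9 : ∫ z in O, ((p (Y z) * lev g z (W z) : ℝ) : ℂ) =
      ((∫ z in O, p (Y z) * lev g z (W z) : ℝ) : ℂ) := integral_ofReal
  rw [h9] at y3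
  have h5 : ∫ z in O, A1 z = ((∫ z in O, g z * lev p (Y z) (ek k) * ‖det z‖ ^ 2 : ℝ) : ℂ) := by
    simp only [hA1r]
    exact integral_ofReal
  rw [h5] at y1'
  have h6 : ∫ z in O, A2 z = -((∫ z in O, g z * lev p (Y z) (ek k) * ‖det z‖ ^ 2 : ℝ) : ℂ) := by
    linear_combination y1'
  rw [h6, map_neg, Complex.conj_ofReal] at y3
  have h7 : ((∫ z in O, g z * lev p (Y z) (ek k) * ‖det z‖ ^ 2 : ℝ) : ℂ) =
      ((∫ z in O, p (Y z) * lev g z (W z) : ℝ) : ℂ) := by
    linear_combination -y3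
  have h8 := Complex.ofReal_injective h7
  change 0 ≤ ∫ z in O, g z * lev p (Y z) (ek k) * ‖det z‖ ^ 2
  rw [h8]
  exact setIntegral_nonneg hO.measurableSet fun z _ => mul_nonneg (hp0 _) (hpsh _ _)

theorem lsb (hsmo : T_SMO) (hlin : T_LIN) (hchr : T_CHR) (hpio : T_PIO) (hare : T_ARE)
    (hmop : T_MOP) (hjac : T_JAC) (hymx : T_YMX) (hs1m : T_S1M) (hyfo : T_YFO) : T_LSB := by
  intro n X _ _ ι _ A f I D hn hM a z₀ y₀ r m G l hy₀ hL r' ε₀ δ₁ D₀ hF Φ j hj g hg hpsh
  obtain ⟨hr'0, hr'r, -, -, hδ₁⟩ := hF.pos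
  set P : V (n + n) := Fin.append z₀ y₀ with hP
  set F : V n → V n := FF A f a with hFdef
  set O := Ug A f I D a P r' with hOdef
  have hO : IsOpen O := (hmop n X ι A f I D hM).2.2.1 a P r'
  have hFd : DifferentiableOn ℂ F O := (hM.hol a).mono (fun z hz => ⟨hz.1, hz.2.1⟩)
  have hFat : ∀ z ∈ O, DifferentiableAt ℂ F z := fun z hz => hFd.differentiableAt (hO.mem_nhds hz)
  have hZr : ∀ z ∈ O, Zf F z ∈ Metric.ball P r := fun z hz =>
    Metric.ball_subset_ball hr'r.le hz.2.2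
  set Y : V n → V n := fun x => YY l P Φ (ej j) (Zf F x) with hYdef
  have hYd : DifferentiableOn ℂ Y O := fun z hz =>
    ((hjac n F z P r l (hFat z hz) hL.lhol (hZr z hz) Φ (ej j)).1).differentiableWithinAt
  have hcnt : ∀ᵐ w ∂(volume.restrict (Metric.ball (0 : V n) δ₁)),
      {z | z ∈ O ∧ Y z = w}.encard ≤ D₀ := hF.cnt Φ j hj
  have hgood : Good O Y δ₁ := good_of_card hare hO hYd hcnt
  have hsubb : ∀ z ∈ O, z ∈ Metric.closedBall z₀ r' := fun z hz =>
    Metric.ball_subset_closedBall ((append_mem_ball hr'0).1 hz.2.2).1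
  obtain ⟨Mg, hMg⟩ := (isCompact_closedBall z₀ r').exists_bound_of_continuousOn
    hg.continuous.continuousOn
  refine ⟨fs O Y g, ?_, ?_, ?_⟩
  · have h1 := fs_aesm hare hO hYd hgood hg.continuous.measurable
    have : IsFiniteMeasure (volume.restrict (Metric.ball (0 : V n) δ₁)) :=
      ⟨by rw [Measure.restrict_apply_univ]; exact measure_ball_lt_top⟩
    refine Integrable.of_bound h1 (D₀ * |Mg|) ?_
    filter_upwards [hcnt] with w hw
    have hfin : {z | z ∈ O ∧ Y z = w}.Finite := Set.finite_of_encard_le_coe hw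
    rw [fs_eq_sum hfin]
    refine (norm_sum_le _ _).trans ?_
    have h2 : ∀ z ∈ hfin.toFinset, ‖g z‖ ≤ |Mg| := by
      intro z hz
      rw [Finite.mem_toFinset] at hz
      exact (hMg z (hsubb z hz.1)).trans (le_abs_self _)
    refine (Finset.sum_le_card_nsmul _ _ _ h2).trans ?_
    rw [nsmul_eq_mul]
    refine mul_le_mul_of_nonneg_right ?_ (abs_nonneg _)
    have h3 : (hfin.toFinset.card : ℕ∞) ≤ D₀ := by
      rw [← hfin.encard_eq_coe_toFinset_card]
      exact hw
    exact_mod_cast h3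
  · filter_upwards [hgood] with w hw
    exact ⟨hw.1, rfl⟩
  · intro p hp hpc hpt hp0
    have hmain := fun k => main_id hsmo hlin hchr hpio hmop hjac hymx hs1m hyfo hn hM hy₀ hL hF Φ
      (ej_pos j).le hj (ej_le_one j) hg hpsh hp hpc hpt hp0 k
    -- the function on `O`
    set L : V n → ℝ := fun y => ∑ k, lev p y (ek k) with hLdef
    have hlevc : ∀ k : Fin n, Continuous (fun y => lev p y (ek k)) := by
      intro k
      have h1 : ContDiffOn ℝ 2 p univ := (hp.of_le (WithTop.coe_le_coe.2 le_top)).contDiffOn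
      have h2 := Pool.Agent.H73.VG.lev_continuousOn (F := fun _ : V n => ek k) isOpen_univ h1
        continuousOn_const
      exact continuousOn_univ.1 h2
    have hLc : Continuous L := continuous_finsetSum _ fun k _ => hlevc k
    have hL0 : ∀ y, y ∉ tsupport p → L y = 0 := by
      intro y hy
      refine Finset.sum_eq_zero fun k _ => ?_
      have h1 : p =ᶠ[𝓝 y] fun _ => 0 := by
        filter_upwards [(isClosed_tsupport p).isOpen_compl.mem_nhds hy] with x hx
        exact image_eq_zero_of_notMem_tsupport hx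
      rw [Pool.Agent.H30.VG.Sh.lev_congr h1, Pool.Agent.H30.VG.Sh.lev_const]
    set h : V n → ℝ := O.indicator (fun z => g z * L (Y z)) with hh
    have hhm : Measurable h := by
      have h1 : ContinuousOn (fun z => g z * L (Y z)) O :=
        hg.continuous.continuousOn.mul (hLc.comp_continuousOn hYd.continuousOn)
      classical
      have h2 := h1.measurable_piecewise (g := fun _ => (0 : ℝ)) continuousOn_const
        hO.measurableSet
      have h3 : h = O.piecewise (fun z => g z * L (Y z)) (fun _ => (0 : ℝ)) := by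
        rw [hh]
        exact (piecewise_eq_indicator).symm
      rw [h3]
      exact h2
    have hheq : ∀ z ∈ O, h z * ‖(jac Y z).det‖ ^ 2 =
        ∑ k, g z * lev p (Y z) (ek k) * ‖(jac Y z).det‖ ^ 2 := by
      intro z hz
      rw [hh, indicator_of_mem hz, hLdef, Finset.mul_sum, Finset.sum_mul]
    have hint : IntegrableOn (fun z => h z * ‖(jac Y z).det‖ ^ 2) O := by
      have h1 : IntegrableOn (fun z => ∑ k, g z * lev p (Y z) (ek k) * ‖(jac Y z).det‖ ^ 2) O :=
        integrable_finsetSum _ fun k _ => (hmain k).1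
      exact h1.congr_fun (fun z hz => (hheq z hz).symm) hO.measurableSet
    have hsupp : ∀ z ∈ O, Y z ∉ Metric.ball (0 : V n) δ₁ → h z = 0 := by
      intro z hz hzb
      rw [hh, indicator_of_mem hz, hL0 _ (fun h => hzb (hpt h)), mul_zero]
    obtain ⟨-, hfi⟩ := fs_integral hare hO hYd hgood hhm hsupp hint
    have hfs : ∫ y in Metric.ball (0 : V n) δ₁, fs O Y g y * L y =
        ∫ w in Metric.ball (0 : V n) δ₁, fs O Y h w := by
      refine integral_congr_ae ?_
      filter_upwards [hgood] with w hw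
      rw [fs_eq_sum hw.1, fs_eq_sum hw.1, Finset.sum_mul]
      refine Finset.sum_congr rfl fun z hz => ?_
      rw [Finite.mem_toFinset] at hz
      rw [hh, indicator_of_mem hz.1, hz.2]
    change 0 ≤ ∫ y in Metric.ball (0 : V n) δ₁, fs O Y g y * L y
    rw [hfs, hfi, setIntegral_congr_fun hO.measurableSet hheq,
      integral_finsetSum _ fun k _ => (hmain k).1]
    exact Finset.sum_nonneg fun k _ => (hmain k).2

end Pool.Agent.H81.VG.LSB
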